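import Mathlib

namespace Pool.Agent.Work.MP_eac634_nt

/-- The base-`b` digital reverse of `n`: the list of base-`b` digits of `n` read backwards. -/
def rev (b n : ℕ) : ℕ := Nat.ofDigits b (Nat.digits b n).reverse

/-- `N` is a sum of at most `K` reversed primes in base `b` (repetitions allowed). -/
def IsSumOfRevPrimes (b K N : ℕ) : Prop :=
  ∃ l : List ℕ, l.length ≤ K ∧ (∀ p ∈ l, p.Prime) ∧ (l.map (rev b)).sum = N

end Pool.Agent.Work.MP_eac634_nt
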