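import Mathlib
import Pool.Agent.Work.MP_eac634_nt.Defs
import Pool.Agent.Lib.ANT.PNT

-- merged part: Pool.Agent.Work.MP_eac634_nt.Error
section
-- merged part: Pool.Agent.Work.MP_eac634_nt.Expo
section
/-!
# Exponential sums: basic tools
-/

open Finset

namespace Pool.Agent.Work.MP_eac634_nt

/-- `e x = exp (2 π i x)`. -/
noncomputable def e (x : ℝ) : ℂ := Complex.exp (Complex.I * ((2 * Real.pi * x : ℝ) : ℂ))

lemma e_add (x y : ℝ) : e (x + y) = e x * e y := by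
  unfold e
  rw [← Complex.exp_add]
  congr 1
  push_cast
  ring

@[simp] lemma e_zero : e 0 = 1 := by simp [e]

@[simp] lemma norm_e (x : ℝ) : ‖e x‖ = 1 := by
  unfold e
  rw [mul_comm, Complex.norm_exp_ofReal_mul_I]

lemma e_int (z : ℤ) : e z = 1 := by
  unfold e
  have : Complex.I * ((2 * Real.pi * (z : ℝ) : ℝ) : ℂ) = z * (2 * Real.pi * Complex.I) := by
    push_cast; ring
  rw [this, Complex.exp_int_mul_two_pi_mul_I]

lemma e_nat_mul (n : ℕ) (x : ℝ) : e (n * x) = e x ^ n := by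
  induction n with
  | zero => simp
  | succ n ih => rw [pow_succ, ← ih, ← e_add]; congr 1; push_cast; ring

lemma conj_e (x : ℝ) : (starRingEnd ℂ) (e x) = e (-x) := by
  unfold e
  rw [← Complex.exp_conj]
  congr 1
  rw [map_mul, Complex.conj_I, Complex.conj_ofReal]
  push_cast
  ring

lemma e_sub_int (x : ℝ) (z : ℤ) : e (x - z) = e x := by
  have : e x = e (x - z) * e z := by rw [← e_add]; congr 1; ring
  rw [this, e_int, mul_one]

/-- Distance to the nearest integer. -/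
noncomputable def nz (x : ℝ) : ℝ := |x - round x|

lemma nz_nonneg (x : ℝ) : 0 ≤ nz x := abs_nonneg _

lemma nz_le (x : ℝ) (z : ℤ) : nz x ≤ |x - z| := round_le x z

lemma nz_le_half (x : ℝ) : nz x ≤ 1 / 2 := abs_sub_round x

lemma four_nz_le (x : ℝ) : 4 * nz x ≤ ‖e x - 1‖ := by
  rw [← e_sub_int x (round x)]
  unfold e
  rw [Complex.norm_exp_I_mul_ofReal_sub_one]
  have h1 := nz_le_half x
  unfold nz at h1 ⊢
  set f := x - round x
  have hpi := Real.pi_pos
  have h2 : |2 * Real.pi * f / 2| = Real.pi * |f| := by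
    rw [show 2 * Real.pi * f / 2 = Real.pi * f by ring, abs_mul, abs_of_pos hpi]
  have h3 := Real.mul_abs_le_abs_sin (x := 2 * Real.pi * f / 2) (by rw [h2]; linarith only [h1, hpi, mul_nonneg_of_nonpos_of_nonpos (Mathlib.Tactic.Linarith.sub_nonpos_of_le h1) (le_of_lt (Mathlib.Tactic.Linarith.sub_neg_of_lt hpi))])
  rw [h2] at h3
  rw [Real.norm_eq_abs, abs_mul, abs_two]
  have : 2 / Real.pi * (Real.pi * |f|) = 2 * |f| := by field_simp
  linarith only [h3, this]

lemma nz_sub_le (x y : ℝ) : nz (x - y) ≤ nz x + nz y := by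
  have := nz_le (x - y) (round x - round y)
  refine this.trans ?_
  unfold nz
  push_cast
  calc |x - y - (round x - round y)| = |(x - round x) - (y - round y)| := by congr 1; ring
    _ ≤ _ := abs_sub _ _

lemma nz_nat_mul_le (k : ℕ) (x : ℝ) : nz (k * x) ≤ k * nz x := by
  have := nz_le (k * x) (k * round x)
  refine this.trans ?_
  unfold nz
  push_cast
  rw [← mul_sub, abs_mul, Nat.abs_cast]

lemma nz_nat_mul_ge (k : ℕ) (x : ℝ) (h : k * nz x ≤ 1 / 2) : k * nz x ≤ nz (k * x) := by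
  unfold nz at *
  set f := x - round x with hf
  set z : ℤ := round ((k : ℝ) * x) - k * round x with hz
  have h1 : (k : ℝ) * x - round ((k : ℝ) * x) = k * f - z := by
    rw [hz, hf]; push_cast; ring
  rw [h1]
  have h2 : (k : ℝ) * |f| = |k * f| := by rw [abs_mul, Nat.abs_cast]
  rw [h2] at h ⊢
  rcases eq_or_ne z 0 with h0 | h0
  · simp [h0]
  · have h3 : (1 : ℝ) ≤ |(z : ℝ)| := by
      rw [← Int.cast_abs]; exact_mod_cast Int.one_le_abs h0
    have h4 : |(z : ℝ)| ≤ |k * f| + |k * f - z| := by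
      calc |(z : ℝ)| = |k * f - (k * f - z)| := by congr 1; ring
        _ ≤ _ := abs_sub _ _
    linarith only [h, h3, h4]

/-- A non-integral rational number is at distance at least `1 / den` from the integers. -/
lemma nz_rat (r : ℚ) (hr : r.den ≠ 1) : 1 / (r.den : ℝ) ≤ nz r := by
  unfold nz
  set z := round (r : ℝ)
  have hd : (0 : ℝ) < r.den := by exact_mod_cast r.den_pos
  have h1 : (r : ℝ) - z = ((r.num - z * r.den : ℤ) : ℝ) / r.den := by
    have : (r : ℝ) = r.num / r.den := by exact_mod_cast (Rat.num_div_den r).symm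
    rw [this]; push_cast; field_simp
  have h2 : r.num - z * r.den ≠ 0 := by
    intro h
    have h3 : (r.den : ℤ) ∣ r.num := ⟨z, by linarith only [h]⟩
    have h4 := r.reduced
    have h5 : r.den ∣ r.num.natAbs := by
      have := Int.natAbs_dvd_natAbs.2 h3
      simpa using this
    exact hr (Nat.Coprime.eq_one_of_dvd h4.symm h5)
  rw [h1, abs_div, abs_of_pos hd]
  gcongr
  rw [← Int.cast_abs]; exact_mod_cast Int.one_le_abs h2

lemma geom_bound (x : ℝ) (hx : 0 < nz x) (N : ℕ) :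
    ‖∑ n ∈ range N, e (n * x)‖ ≤ 1 / (2 * nz x) := by
  have h1 := four_nz_le x
  have h2 : e x ≠ 1 := by
    intro h; rw [h] at h1; simp at h1; linarith
  simp_rw [e_nat_mul]
  rw [geom_sum_eq h2, norm_div]
  have h3 : ‖e x ^ N - 1‖ ≤ 2 := by
    calc ‖e x ^ N - 1‖ ≤ ‖e x ^ N‖ + ‖(1 : ℂ)‖ := norm_sub_le _ _
      _ = 2 := by simp; norm_num
  rw [div_le_div_iff₀ (by linarith) (by linarith)]
  linarith only [h1, hx, h3, norm_nonneg (e x ^ N - 1), mul_nonneg_of_nonpos_of_nonpos (le_of_lt (Mathlib.Tactic.Linarith.sub_neg_of_lt hx)) (Mathlib.Tactic.Linarith.sub_nonpos_of_le h3)]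

/-- Orthogonality of additive characters modulo `M`. -/
lemma orth (M : ℕ) (hM : 0 < M) (t : ℤ) :
    ∑ k ∈ range M, e (k * (t / M)) = if (M : ℤ) ∣ t then (M : ℂ) else 0 := by
  have hM' : (M : ℝ) ≠ 0 := by positivity
  split_ifs with h
  · obtain ⟨c, rfl⟩ := h
    have : ∀ k ∈ range M, e (k * ((((M : ℤ) * c : ℤ) : ℝ) / M)) = 1 := by
      intro k _
      rw [← e_int (k * c)]
      congr 1
      push_cast
      field_simp
    rw [sum_congr rfl this]; simp
  · have h2 : e (t / M) ≠ 1 := by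
      intro h1
      have h3 := four_nz_le (t / M)
      rw [h1] at h3
      have h4 : nz (t / M) = 0 := le_antisymm (by simp at h3; linarith only [h3]) (nz_nonneg _)
      unfold nz at h4
      rw [abs_eq_zero, sub_eq_zero, div_eq_iff hM'] at h4
      apply h
      refine ⟨round ((t : ℝ) / M), ?_⟩
      have : (t : ℝ) = ((M : ℤ) * round ((t : ℝ) / M) : ℤ) := by push_cast; linarith only [h4]
      exact_mod_cast this
    simp_rw [e_nat_mul]
    rw [geom_sum_eq h2, ← e_nat_mul]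
    have : (M : ℝ) * (t / M) = t := by field_simp
    rw [this, e_int]; simp

lemma norm_digit_sum_le (b : ℕ) (t : ℝ) : ‖∑ c ∈ range b, e (c * t)‖ ≤ b := by
  refine (norm_sum_le _ _).trans ?_
  simp

/-- Saving in a digit sum. -/
lemma norm_digit_sum_le' (b : ℕ) (hb : 2 ≤ b) (t : ℝ) :
    ‖∑ c ∈ range b, e (c * t)‖ ≤ b - 4 * nz t ^ 2 := by
  obtain ⟨c, rfl⟩ := Nat.exists_eq_add_of_le hb
  rw [sum_range_add]
  refine (norm_add_le _ _).trans ?_
  have h1 : ‖∑ x ∈ range c, e (((2 + x : ℕ) : ℝ) * t)‖ ≤ c := by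
    refine (norm_sum_le _ _).trans ?_
    simp
  have h2 : ‖∑ x ∈ range 2, e (x * t)‖ ≤ 2 - 4 * nz t ^ 2 := by
    simp only [sum_range_succ, sum_range_zero, Nat.cast_zero, zero_mul, e_zero, zero_add,
      Nat.cast_one, one_mul]
    have h3 := four_nz_le t
    have h4 := nz_nonneg t
    have h5 := nz_le_half t
    have h6 : ‖1 + e t‖ ^ 2 + ‖e t - 1‖ ^ 2 = 4 := by
      have := parallelogram_law_with_norm ℝ (e t) 1
      rw [add_comm 1 (e t)]
      simp only [norm_e, norm_one] at this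
      nlinarith
    have h7 : ‖1 + e t‖ ^ 2 ≤ (2 - 4 * nz t ^ 2) ^ 2 := by linarith only [h6, h3, h4, mul_nonneg_of_nonpos_of_nonpos (Mathlib.Tactic.Linarith.sub_nonpos_of_le (sq_nonneg (nz t))) (Mathlib.Tactic.Linarith.sub_nonpos_of_le (sq_nonneg (nz t))), mul_nonneg_of_nonpos_of_nonpos (Mathlib.Tactic.Linarith.sub_nonpos_of_le h3) (Mathlib.Tactic.Linarith.sub_nonpos_of_le h3), mul_nonneg_of_nonpos_of_nonpos (Mathlib.Tactic.Linarith.sub_nonpos_of_le h3) (Mathlib.Tactic.Linarith.sub_nonpos_of_le h4)]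
    have h8 : 0 ≤ 2 - 4 * nz t ^ 2 := by linarith only [h6, h3, h4, sq_nonneg ‖(1 : ℂ) + e t‖, mul_nonneg_of_nonpos_of_nonpos (Mathlib.Tactic.Linarith.sub_nonpos_of_le h3) (Mathlib.Tactic.Linarith.sub_nonpos_of_le h3), mul_nonneg_of_nonpos_of_nonpos (Mathlib.Tactic.Linarith.sub_nonpos_of_le h3) (Mathlib.Tactic.Linarith.sub_nonpos_of_le h4)]
    exact (abs_le_of_sq_le_sq' h7 h8).2
  push_cast at h1 ⊢
  linarith

end Pool.Agent.Work.MP_eac634_nt
end

-- merged part: Pool.Agent.Work.MP_eac634_nt.LS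
section
/-!
# A crude large sieve inequality, Parseval, and a convolution bound
-/

open Finset

namespace Pool.Agent.Work.MP_eac634_nt

lemma norm_sq_sum_eq {ι : Type*} (s : Finset ι) (a : ι → ℂ) :
    ((‖∑ i ∈ s, a i‖ ^ 2 : ℝ) : ℂ) = ∑ i ∈ s, ∑ j ∈ s, a i * (starRingEnd ℂ) (a j) := by
  push_cast
  rw [← Complex.mul_conj', map_sum, sum_mul_sum]

lemma ls_bound {ι : Type*} (Θ : Finset ι) (x : ι → ℝ) (N : ℕ) (c : ℕ → ℂ) (hc : ∀ n, ‖c n‖ ≤ 1)
    (M : ℝ) (hM0 : 0 ≤ M)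
    (hM : ∀ i ∈ Θ, ∀ j ∈ Θ, i ≠ j → ‖∑ n ∈ range N, e (n * (x i - x j))‖ ≤ M) :
    ∑ i ∈ Θ, ‖∑ n ∈ range N, c n * e (n * x i)‖ ^ 2 ≤ (N + Θ.card * M) * N := by
  classical
  set S : ι → ℂ := fun i => ∑ n ∈ range N, c n * e (n * x i) with hS
  set T : ℝ := ∑ i ∈ Θ, ‖S i‖ ^ 2 with hT
  set U : ℕ → ℂ := fun n => ∑ i ∈ Θ, (starRingEnd ℂ) (S i) * e (n * x i) with hU
  have hT0 : 0 ≤ T := sum_nonneg fun _ _ => by positivity
  have h1 : (T : ℂ) = ∑ n ∈ range N, c n * U n := by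
    simp only [hT, hU, mul_sum]
    rw [sum_comm]
    push_cast
    refine sum_congr rfl fun i _ => ?_
    rw [← Complex.mul_conj']
    conv_lhs => rw [hS]
    simp only [sum_mul]
    refine sum_congr rfl fun n _ => ?_
    ring
  have h2 : T ≤ ∑ n ∈ range N, 1 * ‖U n‖ := by
    have : T = ‖(T : ℂ)‖ := by rw [Complex.norm_real, Real.norm_eq_abs, abs_of_nonneg hT0]
    rw [this, h1]
    refine (norm_sum_le _ _).trans (sum_le_sum fun n _ => ?_)
    rw [norm_mul]
    gcongr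
    exact hc n
  have h3 : T ^ 2 ≤ N * ∑ n ∈ range N, ‖U n‖ ^ 2 := by
    have := sum_mul_sq_le_sq_mul_sq (range N) (fun _ => (1 : ℝ)) (fun n => ‖U n‖)
    simp only [one_pow, sum_const, card_range, nsmul_eq_mul, mul_one] at this
    exact (pow_le_pow_left₀ hT0 h2 2).trans this
  have h4 : ((∑ n ∈ range N, ‖U n‖ ^ 2 : ℝ) : ℂ) =
      ∑ i ∈ Θ, ∑ j ∈ Θ, (starRingEnd ℂ) (S i) * S j * ∑ n ∈ range N, e (n * (x i - x j)) := by
    rw [Complex.ofReal_sum]
    simp only [hU, norm_sq_sum_eq, mul_sum]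
    rw [sum_comm]
    refine sum_congr rfl fun i _ => ?_
    rw [sum_comm]
    refine sum_congr rfl fun j _ => sum_congr rfl fun n _ => ?_
    rw [map_mul, conj_e, Complex.conj_conj, mul_sub, sub_eq_add_neg, e_add]
    ring
  have h5 : ∑ n ∈ range N, ‖U n‖ ^ 2 ≤ N * T + M * (∑ i ∈ Θ, ‖S i‖) ^ 2 := by
    have h0 : 0 ≤ ∑ n ∈ range N, ‖U n‖ ^ 2 := sum_nonneg fun _ _ => by positivity
    have : ∑ n ∈ range N, ‖U n‖ ^ 2 = ‖((∑ n ∈ range N, ‖U n‖ ^ 2 : ℝ) : ℂ)‖ := by
      rw [Complex.norm_real, Real.norm_eq_abs, abs_of_nonneg h0]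
    rw [this, h4, sq (∑ i ∈ Θ, ‖S i‖), sum_mul_sum, hT, mul_sum, mul_sum, ← sum_add_distrib]
    refine (norm_sum_le _ _).trans (sum_le_sum fun i hi => ?_)
    have h6 : (N : ℝ) * ‖S i‖ ^ 2 = ∑ j ∈ Θ, if j = i then (N : ℝ) * ‖S i‖ ^ 2 else 0 := by
      rw [sum_ite_eq' Θ i, if_pos hi]
    rw [h6, mul_sum, ← sum_add_distrib]
    refine (norm_sum_le _ _).trans (sum_le_sum fun j hj => ?_)
    rw [norm_mul, norm_mul, Complex.norm_conj]
    split_ifs with hji
    · subst hji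
      have : ‖∑ n ∈ range N, e (n * (x j - x j))‖ ≤ N := by
        refine (norm_sum_le _ _).trans ?_
        simp
      have h7 := norm_nonneg (S j)
      linarith only [hM0, h7, this, mul_nonneg hM0 (mul_nonneg h7 h7), mul_le_mul_of_nonneg_left this (mul_nonneg h7 h7)]
    · have := hM i hi j hj (Ne.symm hji)
      have h7 := mul_nonneg (norm_nonneg (S i)) (norm_nonneg (S j))
      linarith only [this, h7, mul_le_mul_of_nonneg_left this h7]
  have h6 : (∑ i ∈ Θ, ‖S i‖) ^ 2 ≤ Θ.card * T := by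
    have := sum_mul_sq_le_sq_mul_sq Θ (fun _ => (1 : ℝ)) (fun i => ‖S i‖)
    simpa using this
  have h7 : T ^ 2 ≤ ((N + Θ.card * M) * N) * T := by
    have hN : (0 : ℝ) ≤ N := by positivity
    calc T ^ 2 ≤ N * (N * T + M * (Θ.card * T)) := by
          refine h3.trans ?_
          gcongr
          refine h5.trans ?_
          gcongr
      _ = _ := by ring
  rcases hT0.eq_or_lt with h | h
  · rw [← h]; positivity
  · rw [sq] at h7
    exact le_of_mul_le_mul_right h7 h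

lemma parseval (M : ℕ) (hM : 0 < M) (A : Finset ℕ) (hA : ∀ a ∈ A, a < M) :
    ∑ k ∈ range M, ‖∑ a ∈ A, e (k * ((a : ℝ) / M))‖ ^ 2 = M * A.card := by
  have : ((∑ k ∈ range M, ‖∑ a ∈ A, e (k * ((a : ℝ) / M))‖ ^ 2 : ℝ) : ℂ) =
      ((M * A.card : ℝ) : ℂ) := by
    rw [Complex.ofReal_sum]
    simp only [norm_sq_sum_eq]
    rw [sum_comm]
    have h1 : ∀ a ∈ A, ∑ k ∈ range M, ∑ j ∈ A, e (k * ((a : ℝ) / M)) *
        (starRingEnd ℂ) (e (k * ((j : ℝ) / M))) = M := by
      intro a ha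
      rw [sum_comm]
      have h2 : ∀ j ∈ A, ∑ k ∈ range M, e (k * ((a : ℝ) / M)) *
          (starRingEnd ℂ) (e (k * ((j : ℝ) / M))) = if j = a then (M : ℂ) else 0 := by
        intro j hj
        have h3 := orth M hM ((a : ℤ) - j)
        have h4 : ((M : ℤ) ∣ (a : ℤ) - j) ↔ j = a := by
          constructor
          · intro h
            have ha' := hA a ha
            have hj' := hA j hj
            have := Int.eq_zero_of_abs_lt_dvd h (by rw [abs_lt]; constructor <;> omega)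
            omega
          · rintro rfl; simp
        simp only [h4] at h3
        rw [← h3]
        refine sum_congr rfl fun k _ => ?_
        rw [conj_e, ← e_add]
        congr 1
        push_cast
        ring
      rw [sum_congr rfl h2, sum_ite_eq' A a, if_pos ha]
    rw [sum_congr rfl h1]
    simp [mul_comm]
  exact_mod_cast this

lemma conv_bound {ι : Type*} (M : ℕ) (hM : 0 < M) (A S : Finset ℕ) (N : Finset ι) (g : ι → ℝ)
    (R : ι → ℕ) (hA : ∀ a ∈ A, a < M) (hS : ∀ s ∈ S, s < M)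
    (hsum : ∀ a ∈ A, ∀ n ∈ N, a + R n < M) (E : ℝ)
    (hE : ∀ α : ℝ, ‖∑ n ∈ N, (g n : ℂ) * e (α * R n)‖ ≤ E) :
    ∑ a ∈ A, ∑ n ∈ N, (if a + R n ∈ S then g n else 0) ≤ E * √(A.card * S.card) := by
  have hM' : (0 : ℝ) < M := by exact_mod_cast hM
  set L : ℝ := ∑ a ∈ A, ∑ n ∈ N, (if a + R n ∈ S then g n else 0) with hL
  have h1 : ((M * L : ℝ) : ℂ) = ∑ k ∈ range M, (∑ a ∈ A, e (k * ((a : ℝ) / M))) *
      (∑ n ∈ N, (g n : ℂ) * e ((k / M) * R n)) *
        (starRingEnd ℂ) (∑ s ∈ S, e (k * ((s : ℝ) / M))) := by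
    simp only [map_sum, sum_mul, mul_sum]
    rw [hL]
    push_cast
    rw [mul_sum]
    symm
    calc _ = ∑ a ∈ A, ∑ n ∈ N, ∑ s ∈ S, ∑ k ∈ range M, e (k * ((a : ℝ) / M)) *
          ((g n : ℂ) * e ((k / M) * R n)) * (starRingEnd ℂ) (e (k * ((s : ℝ) / M))) := by
          rw [sum_comm]
          simp_rw [sum_comm (s := range M)]
          rw [sum_comm]
          simp_rw [sum_comm (s := S)]
          rw [sum_comm]
      _ = _ := by
          refine sum_congr rfl fun a ha => ?_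
          rw [mul_sum]
          refine sum_congr rfl fun n hn => ?_
          have h2 : ∀ s ∈ S, ∑ k ∈ range M, e (k * ((a : ℝ) / M)) *
              ((g n : ℂ) * e ((k / M) * R n)) * (starRingEnd ℂ) (e (k * ((s : ℝ) / M))) =
              if s = a + R n then (M : ℂ) * g n else 0 := by
            intro s hs
            have h3 := orth M hM ((a : ℤ) + R n - s)
            have h4 : ((M : ℤ) ∣ (a : ℤ) + R n - s) ↔ s = a + R n := by
              constructor
              · intro h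
                have ha' := hsum a ha n hn
                have hj' := hS s hs
                have := Int.eq_zero_of_abs_lt_dvd h (by rw [abs_lt]; constructor <;> omega)
                omega
              · rintro rfl; simp
            simp only [h4] at h3
            have h5 : (if s = a + R n then (M : ℂ) * g n else 0) =
                (if s = a + R n then (M : ℂ) else 0) * g n := by split_ifs <;> simp
            rw [h5, ← h3, sum_mul]
            refine sum_congr rfl fun k _ => ?_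
            rw [conj_e]
            have : (k : ℝ) * ((((a : ℤ) + R n - s : ℤ) : ℝ) / M) =
                k * ((a : ℝ) / M) + (k / M) * R n + -(k * ((s : ℝ) / M)) := by
              push_cast; ring
            rw [this, e_add, e_add]
            ring
          rw [sum_congr rfl h2, sum_ite_eq' S (a + R n)]
          split_ifs <;> simp
  have hE0 : 0 ≤ E := (norm_nonneg _).trans (hE 0)
  have h2 : M * L ≤ E * ∑ k ∈ range M, ‖∑ a ∈ A, e (k * ((a : ℝ) / M))‖ *
      ‖∑ s ∈ S, e (k * ((s : ℝ) / M))‖ := by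
    refine (le_abs_self _).trans ?_
    rw [← Real.norm_eq_abs, ← Complex.norm_real, h1, mul_sum]
    refine (norm_sum_le _ _).trans (sum_le_sum fun k _ => ?_)
    rw [norm_mul, norm_mul, Complex.norm_conj]
    have := hE (k / M)
    calc _ ≤ ‖∑ a ∈ A, e (k * ((a : ℝ) / M))‖ * E * ‖∑ s ∈ S, e (k * ((s : ℝ) / M))‖ := by
          gcongr
      _ = _ := by ring
  have h3 := Real.sum_mul_le_sqrt_mul_sqrt (range M) (fun k => ‖∑ a ∈ A, e (k * ((a : ℝ) / M))‖)
    (fun k => ‖∑ s ∈ S, e (k * ((s : ℝ) / M))‖)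
  rw [parseval M hM A hA, parseval M hM S hS, ← Real.sqrt_mul (by positivity),
    show (M : ℝ) * A.card * (M * S.card) = M ^ 2 * (A.card * S.card) by ring,
    Real.sqrt_mul (by positivity), Real.sqrt_sq hM'.le] at h3
  have h4 : M * L ≤ M * (E * √(A.card * S.card)) := by
    calc M * L ≤ E * (M * √(A.card * S.card)) := h2.trans (by gcongr)
      _ = _ := by ring
  exact le_of_mul_le_mul_left h4 hM'

end Pool.Agent.Work.MP_eac634_nt
end

-- merged part: Pool.Agent.Work.MP_eac634_nt.Digits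
section
/-!
# Fixed-length digit reversal and its exponential sums
-/

open Finset

namespace Pool.Agent.Work.MP_eac634_nt

/-- Reversal of the lowest `l` digits. -/
def R (b : ℕ) : ℕ → ℕ → ℕ
  | 0, _ => 0
  | l + 1, n => (n % b) * b ^ l + R b l (n / b)

lemma R_lt {b : ℕ} (hb : 0 < b) (l n : ℕ) : R b l n < b ^ l := by
  induction l generalizing n with
  | zero => simp [R]
  | succ l ih =>
    have h1 := ih (n / b)
    have h2 := Nat.mod_lt n hb
    rw [R, pow_succ]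
    nlinarith only [h1, h2]

lemma R_inj {b : ℕ} (hb : 0 < b) (l : ℕ) : ∀ m n, m < b ^ l → n < b ^ l → R b l m = R b l n →
    m = n := by
  induction l with
  | zero => intro m n hm hn _; simp at hm hn; omega
  | succ l ih =>
    intro m n hm hn h
    rw [R, R] at h
    have h1 := R_lt hb l (m / b)
    have h2 := R_lt hb l (n / b)
    have hp : 0 < b ^ l := by positivity
    have h3 : m % b = n % b := by
      have e1 : (m % b * b ^ l + R b l (m / b)) / b ^ l = m % b := by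
        rw [add_comm, Nat.add_mul_div_right _ _ hp, Nat.div_eq_of_lt h1, zero_add]
      have e2 : (n % b * b ^ l + R b l (n / b)) / b ^ l = n % b := by
        rw [add_comm, Nat.add_mul_div_right _ _ hp, Nat.div_eq_of_lt h2, zero_add]
      rw [← e1, ← e2, h]
    rw [h3] at h
    have h4 := ih (m / b) (n / b) (by rw [Nat.div_lt_iff_lt_mul hb]; rwa [pow_succ] at hm)
      (by rw [Nat.div_lt_iff_lt_mul hb]; rwa [pow_succ] at hn) (by omega)
    rw [← Nat.div_add_mod m b, ← Nat.div_add_mod n b, h3, h4]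

lemma rev_eq_R_length {b : ℕ} (hb : 2 ≤ b) (n : ℕ) :
    rev b n = R b (Nat.digits b n).length n := by
  induction n using Nat.strong_induction_on with
  | _ n ih =>
    rcases Nat.eq_zero_or_pos n with rfl | hn
    · simp [rev, R]
    · have h1 := ih (n / b) (Nat.div_lt_self hn hb)
      unfold rev at h1 ⊢
      rw [Nat.digits_def' hb hn, List.reverse_cons, Nat.ofDigits_append, List.length_cons, R, h1]
      simp [mul_comm, add_comm]

lemma rev_eq_R {b : ℕ} (hb : 2 ≤ b) {l n : ℕ} (h1 : b ^ l ≤ n) (h2 : n < b ^ (l + 1)) :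
    rev b n = R b (l + 1) n := by
  have hn : n ≠ 0 := by
    have : 0 < b ^ l := by positivity
    omega
  rw [rev_eq_R_length hb, Nat.length_digits b n hb hn, Nat.log_eq_of_pow_le_of_lt_pow h1 h2]

lemma rev_bounds {b : ℕ} (hb : 2 ≤ b) {l n : ℕ} (h1 : b ^ l ≤ n) (h2 : n < b ^ (l + 1)) :
    (n % b) * b ^ l ≤ rev b n ∧ rev b n < (n % b + 1) * b ^ l := by
  rw [rev_eq_R hb h1 h2, R]
  have := R_lt (b := b) (by omega) l (n / b)
  constructor
  · omega
  · linarith only [this]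

lemma sum_range_mul' {M : Type*} [AddCommMonoid M] (f : ℕ → M) (b N : ℕ) :
    ∑ n ∈ range (N * b), f n = ∑ m ∈ range N, ∑ c ∈ range b, f (m * b + c) := by
  induction N with
  | zero => simp
  | succ N ih => rw [add_mul, one_mul, sum_range_add, ih, sum_range_succ]

/-- The two-frequency exponential sum. -/
noncomputable def F (b l : ℕ) (θ α : ℝ) : ℂ := ∑ n ∈ range (b ^ l), e (θ * n + α * R b l n)

lemma norm_F_le (b l : ℕ) (θ α : ℝ) : ‖F b l θ α‖ ≤ b ^ l := by
  refine (norm_sum_le _ _).trans ?_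
  simp

lemma F_succ {b : ℕ} (hb : 0 < b) (l : ℕ) (θ α : ℝ) :
    F b (l + 1) θ α = (∑ c ∈ range b, e (c * (θ + α * b ^ l))) * F b l (θ * b) α := by
  unfold F
  rw [pow_succ, sum_range_mul', sum_mul_sum, sum_comm]
  refine sum_congr rfl fun c hc => sum_congr rfl fun m _ => ?_
  rw [mem_range] at hc
  have h1 : (m * b + c) % b = c := by rw [Nat.mul_add_mod', Nat.mod_eq_of_lt hc]
  have h2 : (m * b + c) / b = m := by
    rw [add_comm, Nat.add_mul_div_right _ _ hb, Nat.div_eq_of_lt hc, zero_add]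
  rw [R, h1, h2, ← e_add]
  congr 1
  push_cast
  ring

lemma F_split {b : ℕ} (hb : 0 < b) (l₁ l₂ : ℕ) (θ α : ℝ) :
    F b (l₁ + l₂) θ α = F b l₁ θ (α * b ^ l₂) * F b l₂ (θ * b ^ l₁) α := by
  induction l₁ generalizing θ with
  | zero => simp [F, R]
  | succ l ih =>
    rw [show l + 1 + l₂ = (l + l₂) + 1 by ring, F_succ hb, ih, F_succ hb,
      show θ * b * (b : ℝ) ^ l = θ * b ^ (l + 1) by ring,
      show α * (b : ℝ) ^ l₂ * b ^ l = α * b ^ (l + l₂) by ring, mul_assoc]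

/-- The saving constant. -/
noncomputable def kap (b : ℕ) : ℝ := 1 / ((b : ℝ) ^ 3 * (b + 1) ^ 2)

lemma kap_pos {b : ℕ} (hb : 2 ≤ b) : 0 < kap b := by
  have : (0 : ℝ) < b := by positivity
  unfold kap; positivity

lemma kap_lt_one {b : ℕ} (hb : 2 ≤ b) : kap b < 1 := by
  have h : (2 : ℝ) ≤ b := by exact_mod_cast hb
  unfold kap
  rw [div_lt_one (by positivity)]
  have h1 : (1 : ℝ) < b ^ 3 := one_lt_pow₀ (by linarith) (by norm_num)
  have h2 : (1 : ℝ) ≤ (b + 1) ^ 2 := one_le_pow₀ (by linarith)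
  linarith only [h, h1, mul_nonneg_of_nonpos_of_nonpos (Mathlib.Tactic.Linarith.sub_nonpos_of_le (sq_nonneg (↑b + (1 : ℝ)))) (le_of_lt (Mathlib.Tactic.Linarith.sub_neg_of_lt h1)), mul_nonneg_of_nonpos_of_nonpos (Mathlib.Tactic.Linarith.sub_nonpos_of_le (Mathlib.Tactic.Linarith.natCast_nonneg ℝ b)) (Mathlib.Tactic.Linarith.sub_nonpos_of_le (Mathlib.Tactic.Linarith.natCast_nonneg ℝ b))]

lemma norm_F_two {b : ℕ} (hb : 2 ≤ b) (θ α : ℝ)
    (h : 1 / (2 * (b : ℝ)) ≤ nz (θ * (b ^ 2 - 1))) : ‖F b 2 θ α‖ ≤ b ^ 2 * (1 - kap b) := by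
  have hb' : (2 : ℝ) ≤ b := by exact_mod_cast hb
  rw [F_succ (by omega), F_succ (by omega)]
  have h0 : F b 0 (θ * b * b) α = 1 := by simp [F, R]
  rw [h0, mul_one, norm_mul]
  set t₀ := θ + α * (b : ℝ) ^ 1
  set t₁ := θ * b + α * (b : ℝ) ^ 0
  have h1 : θ * (b ^ 2 - 1) = b * t₁ - t₀ := by simp only [t₀, t₁]; ring
  have h2 : nz (θ * (b ^ 2 - 1)) ≤ b * nz t₁ + nz t₀ := by
    rw [h1]; exact (nz_sub_le _ _).trans (by gcongr; exact nz_nat_mul_le _ _)
  set δ : ℝ := 1 / (2 * b * (b + 1)) with hδ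
  have hδ0 : 0 < δ := by positivity
  have h3 : δ ≤ nz t₀ ∨ δ ≤ nz t₁ := by
    by_contra hc
    push Not at hc
    have : (b + 1) * δ = 1 / (2 * (b : ℝ)) := by rw [hδ]; field_simp
    linarith only [h, h2, hc, this, hc.1, hc.2, mul_nonneg_of_nonpos_of_nonpos (Mathlib.Tactic.Linarith.sub_nonpos_of_le (Mathlib.Tactic.Linarith.natCast_nonneg ℝ b)) (le_of_lt (Mathlib.Tactic.Linarith.sub_neg_of_lt hc.right))]
  have h4 : (b : ℝ) ^ 2 * (1 - kap b) = b * (b - 4 * δ ^ 2) := by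
    rw [hδ, kap]; field_simp; ring
  rw [h4]
  rcases h3 with h3 | h3
  · rw [mul_comm]
    have h5 : ‖∑ c ∈ range b, e (c * t₀)‖ ≤ b - 4 * δ ^ 2 :=
      (norm_digit_sum_le' b hb t₀).trans (by gcongr)
    exact mul_le_mul (norm_digit_sum_le b t₁) h5 (norm_nonneg _) (by positivity)
  · have h5 : ‖∑ c ∈ range b, e (c * t₁)‖ ≤ b - 4 * δ ^ 2 :=
      (norm_digit_sum_le' b hb t₁).trans (by gcongr)
    exact mul_le_mul (norm_digit_sum_le b t₀) h5 (norm_nonneg _) (by positivity)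

lemma exists_big_nz {b : ℕ} (hb : 2 ≤ b) (x : ℝ) (k : ℕ)
    (h : 1 / (b : ℝ) ^ k ≤ nz x) : ∃ j ≤ k, 1 / (2 * (b : ℝ)) ≤ nz (x * b ^ j) := by
  have hb' : (2 : ℝ) ≤ b := by exact_mod_cast hb
  by_contra hc
  push Not at hc
  have h1 : ∀ j ≤ k, (b : ℝ) ^ j / b ^ k ≤ nz (x * b ^ j) := by
    intro j hj
    induction j with
    | zero => simpa using h
    | succ j ih =>
      have h2 := ih (by omega)
      have h3 := hc j (by omega)
      have h4 := nz_nat_mul_ge b (x * b ^ j) (by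
        rw [lt_div_iff₀ (by positivity)] at h3; linarith only [h3])
      rw [show (b : ℝ) * (x * b ^ j) = x * b ^ (j + 1) by ring] at h4
      refine le_trans ?_ h4
      rw [pow_succ, mul_comm, mul_div_assoc]
      gcongr
  have h2 := h1 k le_rfl
  rw [div_self (by positivity)] at h2
  have := nz_le_half (x * b ^ k)
  linarith only [h2, this]

lemma norm_F_block {b : ℕ} (hb : 2 ≤ b) (k : ℕ) (θ α : ℝ)
    (h : 1 / (b : ℝ) ^ k ≤ nz (θ * (b ^ 2 - 1))) :
    ‖F b (k + 2) θ α‖ ≤ b ^ (k + 2) * (1 - kap b) := by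
  obtain ⟨j, hj, h1⟩ := exists_big_nz hb _ k h
  obtain ⟨i, rfl⟩ := Nat.exists_eq_add_of_le hj
  rw [show j + i + 2 = j + (2 + i) by ring, F_split (by omega), F_split (by omega), norm_mul,
    norm_mul]
  have h2 := norm_F_two hb (θ * b ^ j) (α * b ^ i) (by
    rwa [show θ * (b : ℝ) ^ j * (b ^ 2 - 1) = θ * (b ^ 2 - 1) * b ^ j by ring])
  have hk := kap_lt_one hb
  calc _ ≤ (b : ℝ) ^ j * ((b ^ 2 * (1 - kap b)) * b ^ i) := by
        gcongr
        · exact norm_F_le _ _ _ _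
        · exact norm_F_le _ _ _ _
    _ = _ := by ring

/-- Pointwise bound for frequencies with small denominators. -/
lemma norm_F_small {b : ℕ} (hb : 2 ≤ b) (k m : ℕ) : ∀ (l : ℕ) (θ α : ℝ), m * (k + 2) ≤ l →
    (∀ j : ℕ, 1 / (b : ℝ) ^ k ≤ nz (θ * (b ^ 2 - 1) * b ^ j)) →
    ‖F b l θ α‖ ≤ b ^ l * (1 - kap b) ^ m := by
  induction m with
  | zero => intro l θ α _ _; simpa using norm_F_le b l θ α
  | succ m ih =>
    intro l θ α hl h
    obtain ⟨l', rfl⟩ : ∃ l', l = (k + 2) + l' := ⟨l - (k + 2), by nlinarith [Nat.sub_add_cancel (show k + 2 ≤ l by nlinarith)]⟩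
    rw [F_split (by omega), norm_mul]
    have h1 := norm_F_block hb k θ (α * b ^ l') (by simpa using h 0)
    have h2 := ih l' (θ * b ^ (k + 2)) α (by linarith only [hl]) (fun j => by
      have := h (k + 2 + j)
      rwa [show θ * (b : ℝ) ^ (k + 2) * (b ^ 2 - 1) * b ^ j =
        θ * (b ^ 2 - 1) * b ^ (k + 2 + j) by ring])
    have hk := kap_lt_one hb
    calc _ ≤ ((b : ℝ) ^ (k + 2) * (1 - kap b)) * (b ^ l' * (1 - kap b) ^ m) := by
          gcongr
      _ = _ := by ring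

end Pool.Agent.Work.MP_eac634_nt
end

-- merged part: Pool.Agent.Work.MP_eac634_nt.Sieve
section
/-!
# Selberg-type weights
-/

open Finset
open scoped ArithmeticFunction.Moebius

namespace Pool.Agent.Work.MP_eac634_nt

/-- The sifting moduli. -/
def Q (B D : ℕ) : Finset ℕ := (Icc 1 D).filter (fun d => Squarefree d ∧ d.Coprime B)

noncomputable def G (B D : ℕ) : ℝ := ∑ m ∈ Q B D, 1 / (m : ℝ)

noncomputable def lam (B D d : ℕ) : ℝ :=
  (μ d : ℝ) * d / G B D * ∑ m ∈ (Q B D).filter (d ∣ ·), 1 / (m : ℝ)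

noncomputable def nu (B D n : ℕ) : ℝ := (∑ d ∈ (Q B D).filter (· ∣ n), lam B D d) ^ 2

noncomputable def W (B D : ℕ) : ℝ :=
  ∑ d₁ ∈ Q B D, ∑ d₂ ∈ Q B D, lam B D d₁ * lam B D d₂ / (Nat.lcm d₁ d₂ : ℝ)

noncomputable def rho (B : ℕ) : ℝ := ∏ p ∈ B.primeFactors, (1 + 1 / (p : ℝ))

variable {B D : ℕ}

lemma mem_Q {d : ℕ} : d ∈ Q B D ↔ 1 ≤ d ∧ d ≤ D ∧ Squarefree d ∧ d.Coprime B := by
  simp [Q, and_assoc]

lemma Q_dvd {d m : ℕ} (hm : m ∈ Q B D) (h : d ∣ m) : d ∈ Q B D := by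
  rw [mem_Q] at hm ⊢
  have hm0 : 0 < m := hm.1
  exact ⟨Nat.pos_of_dvd_of_pos h hm0, (Nat.le_of_dvd hm0 h).trans hm.2.1,
    hm.2.2.1.squarefree_of_dvd h, hm.2.2.2.coprime_dvd_left h⟩

lemma one_mem_Q (hD : 1 ≤ D) : 1 ∈ Q B D := by simp [mem_Q, hD]

lemma one_le_G (hD : 1 ≤ D) : 1 ≤ G B D := by
  have := single_le_sum (f := fun m : ℕ => 1 / (m : ℝ)) (fun _ _ => by positivity)
    (one_mem_Q (B := B) hD)
  simpa [G] using this

lemma lam_one (hD : 1 ≤ D) : lam B D 1 = 1 := by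
  have := one_le_G (B := B) hD
  unfold lam
  rw [filter_true_of_mem (fun _ _ => one_dvd _)]
  change _ * G B D = 1
  simp only [ArithmeticFunction.moebius_apply_one, Int.cast_one, Nat.cast_one]
  field_simp

lemma sum_multiples_le (d : ℕ) :
    ∑ m ∈ (Q B D).filter (d ∣ ·), 1 / (m : ℝ) ≤ G B D / d := by
  have h1 : (Q B D).filter (d ∣ ·) ⊆ (Q B D).image (d * ·) := by
    intro m hm
    rw [mem_filter] at hm
    obtain ⟨k, rfl⟩ := hm.2
    exact mem_image.2 ⟨k, Q_dvd hm.1 (Dvd.intro_left _ rfl), rfl⟩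
  refine (sum_le_sum_of_subset_of_nonneg h1 (fun _ _ _ => by positivity)).trans ?_
  refine (sum_image_le_of_nonneg (fun _ _ => by positivity)).trans ?_
  rw [G, sum_div]
  refine sum_le_sum fun k _ => le_of_eq ?_
  push_cast
  rw [div_div, mul_comm]

lemma abs_lam_le (hD : 1 ≤ D) {d : ℕ} (hd : 0 < d) : |lam B D d| ≤ 1 := by
  have hG := one_le_G (B := B) hD
  have hd' : (0 : ℝ) < d := by exact_mod_cast hd
  have h0 : 0 ≤ ∑ m ∈ (Q B D).filter (d ∣ ·), 1 / (m : ℝ) := sum_nonneg fun _ _ => by positivity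
  unfold lam
  rw [abs_mul, abs_div, abs_mul, abs_of_pos hd', abs_of_pos (by linarith only [hG] : 0 < G B D),
    abs_of_nonneg h0]
  have h1 : |(μ d : ℝ)| ≤ 1 := by
    rw [← Int.cast_abs]; exact_mod_cast ArithmeticFunction.abs_moebius_le_one
  calc _ ≤ 1 * d / G B D * (G B D / d) := by
        gcongr
        exact sum_multiples_le d
    _ = 1 := by field_simp

lemma nu_nonneg (n : ℕ) : 0 ≤ nu B D n := sq_nonneg _

lemma nu_prime (hD : 1 ≤ D) {p : ℕ} (hp : p.Prime) (h : D < p) : nu B D p = 1 := by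
  have : (Q B D).filter (· ∣ p) = {1} := by
    ext d
    simp only [mem_filter, mem_singleton]
    constructor
    · rintro ⟨h1, h2⟩
      rcases (Nat.dvd_prime hp).1 h2 with h3 | h3
      · exact h3
      · rw [mem_Q] at h1; omega
    · rintro rfl; exact ⟨one_mem_Q hD, one_dvd _⟩
  rw [nu, this, sum_singleton, lam_one hD, one_pow]

lemma sum_moebius_between {g m : ℕ} (hm : Squarefree m) :
    ∑ d ∈ m.divisors.filter (g ∣ ·), (μ d : ℝ) = if m = g then (μ g : ℝ) else 0 := by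
  have hm0 : m ≠ 0 := hm.ne_zero
  by_cases hg : g ∣ m
  · obtain ⟨k, rfl⟩ := hg
    have hg0 : g ≠ 0 := left_ne_zero_of_mul hm0
    have hk0 : k ≠ 0 := right_ne_zero_of_mul hm0
    have hcop : g.Coprime k := Nat.coprime_of_squarefree_mul hm
    have h1 : (g * k).divisors.filter (g ∣ ·) = k.divisors.image (g * ·) := by
      ext d
      simp only [mem_filter, Nat.mem_divisors, mem_image]
      constructor
      · rintro ⟨⟨h1, _⟩, c, rfl⟩
        exact ⟨c, ⟨Nat.dvd_of_mul_dvd_mul_left (Nat.pos_of_ne_zero hg0) h1, hk0⟩, rfl⟩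
      · rintro ⟨c, ⟨h1, _⟩, rfl⟩
        exact ⟨⟨Nat.mul_dvd_mul_left _ h1, hm0⟩, Dvd.intro _ rfl⟩
    rw [h1, sum_image (fun a _ b _ h => Nat.eq_of_mul_eq_mul_left (Nat.pos_of_ne_zero hg0) h)]
    have h2 : ∀ c ∈ k.divisors, (μ (g * c) : ℝ) = μ g * μ c := by
      intro c hc
      rw [ArithmeticFunction.isMultiplicative_moebius.map_mul_of_coprime
        (hcop.coprime_dvd_right (Nat.dvd_of_mem_divisors hc))]
      push_cast; rfl
    rw [sum_congr rfl h2, ← mul_sum]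
    have h3 : ∑ c ∈ k.divisors, μ c = if k = 1 then 1 else 0 := by
      rw [← ArithmeticFunction.coe_mul_zeta_apply, ArithmeticFunction.moebius_mul_coe_zeta,
        ArithmeticFunction.one_apply]
    have h4 : ∑ c ∈ k.divisors, (μ c : ℝ) = if k = 1 then 1 else 0 := by
      rw [← Int.cast_sum, h3]; split_ifs <;> simp
    rw [h4]
    by_cases hk : k = 1
    · simp [hk]
    · rw [if_neg hk, if_neg, mul_zero]
      intro h
      exact hk (Nat.eq_of_mul_eq_mul_left (Nat.pos_of_ne_zero hg0) (by simpa using h))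
  · rw [if_neg (fun h : m = g => hg (h ▸ dvd_rfl)), filter_false_of_mem, sum_empty]
    intro d hd h
    exact hg (h.trans (Nat.dvd_of_mem_divisors hd))

lemma sum_lam_div {g : ℕ} (hg : g ∈ Q B D) :
    ∑ d ∈ (Q B D).filter (g ∣ ·), lam B D d / d = μ g / (g * G B D) := by
  have h1 : ∀ d ∈ (Q B D).filter (g ∣ ·), lam B D d / d =
      ∑ m ∈ Q B D, (if d ∣ m then (μ d : ℝ) / (m * G B D) else 0) := by
    intro d hd
    have hd0 : (d : ℝ) ≠ 0 := by
      have := (mem_Q.1 (mem_filter.1 hd).1).1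
      positivity
    rw [lam, ← sum_filter, mul_sum, sum_div]
    refine sum_congr rfl fun m _ => ?_
    field_simp
  rw [sum_congr rfl h1, sum_comm]
  have h2 : ∀ m ∈ Q B D, ∑ d ∈ (Q B D).filter (g ∣ ·), (if d ∣ m then (μ d : ℝ) / (m * G B D) else 0)
      = if m = g then (μ g : ℝ) / (g * G B D) else 0 := by
    intro m hm
    rw [← sum_filter, ← sum_div]
    have h3 : ((Q B D).filter (g ∣ ·)).filter (· ∣ m) = m.divisors.filter (g ∣ ·) := by
      ext d
      simp only [mem_filter, Nat.mem_divisors]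
      constructor
      · rintro ⟨⟨_, h2⟩, h3⟩
        exact ⟨⟨h3, (mem_Q.1 hm).2.2.1.ne_zero⟩, h2⟩
      · rintro ⟨⟨h1, _⟩, h2⟩
        exact ⟨⟨Q_dvd hm h1, h2⟩, h1⟩
    rw [h3, sum_moebius_between (mem_Q.1 hm).2.2.1]
    split_ifs with h
    · rw [h]
    · simp
  rw [sum_congr rfl h2, sum_ite_eq' (Q B D) g, if_pos hg]

lemma W_eq : W B D = ∑ g ∈ Q B D, (g.totient : ℝ) *
    (∑ d ∈ (Q B D).filter (g ∣ ·), lam B D d / d) ^ 2 := by
  have h1 : ∀ d₁ ∈ Q B D, ∀ d₂ ∈ Q B D, lam B D d₁ * lam B D d₂ / (Nat.lcm d₁ d₂ : ℝ) =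
      ∑ g ∈ Q B D, (g.totient : ℝ) * ((if g ∣ d₁ then lam B D d₁ / d₁ else 0) *
        (if g ∣ d₂ then lam B D d₂ / d₂ else 0)) := by
    intro d₁ h₁ d₂ h₂
    have p₁ : 0 < d₁ := (mem_Q.1 h₁).1
    have p₂ : 0 < d₂ := (mem_Q.1 h₂).1
    have h3 : ∀ g ∈ Q B D, (g.totient : ℝ) * ((if g ∣ d₁ then lam B D d₁ / d₁ else 0) *
        (if g ∣ d₂ then lam B D d₂ / d₂ else 0)) =
        (if g ∣ Nat.gcd d₁ d₂ then (g.totient : ℝ) else 0) * (lam B D d₁ / d₁ * (lam B D d₂ / d₂)) := by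
      intro g _
      simp only [Nat.dvd_gcd_iff]
      by_cases a : g ∣ d₁ <;> by_cases b : g ∣ d₂ <;> simp [a, b]
    rw [sum_congr rfl h3, ← sum_mul, ← sum_filter]
    have h4 : (Q B D).filter (· ∣ Nat.gcd d₁ d₂) = (Nat.gcd d₁ d₂).divisors := by
      ext g
      simp only [mem_filter, Nat.mem_divisors]
      constructor
      · rintro ⟨_, h⟩; exact ⟨h, (Nat.gcd_pos_of_pos_left _ p₁).ne'⟩
      · rintro ⟨h, _⟩; exact ⟨Q_dvd h₁ (h.trans (Nat.gcd_dvd_left _ _)), h⟩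
    rw [h4, ← Nat.cast_sum, Nat.sum_totient]
    have h5 : (Nat.gcd d₁ d₂ : ℝ) * Nat.lcm d₁ d₂ = d₁ * d₂ := by
      exact_mod_cast Nat.gcd_mul_lcm d₁ d₂
    have h6 : (Nat.lcm d₁ d₂ : ℝ) ≠ 0 := by
      have := Nat.lcm_pos p₁ p₂
      positivity
    have h7 : (d₁ : ℝ) ≠ 0 := by positivity
    have h8 : (d₂ : ℝ) ≠ 0 := by positivity
    field_simp
    rw [mul_assoc (lam B D d₁ * lam B D d₂), ← h5]
    ring
  unfold W
  rw [sum_congr rfl (fun d₁ h₁ => sum_congr rfl (h1 d₁ h₁))]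
  simp_rw [sum_comm (t := Q B D) (f := fun d₂ g => (Nat.totient g : ℝ) * _)]
  rw [sum_comm]
  refine sum_congr rfl fun g _ => ?_
  rw [sq, sum_filter, sum_mul_sum, mul_sum]
  refine sum_congr rfl fun d₁ _ => ?_
  rw [mul_sum]

lemma W_le (hD : 1 ≤ D) : W B D ≤ 1 / G B D := by
  have hG := one_le_G (B := B) hD
  rw [W_eq]
  have h1 : ∀ g ∈ Q B D, (g.totient : ℝ) *
      (∑ d ∈ (Q B D).filter (g ∣ ·), lam B D d / d) ^ 2 ≤ 1 / (g : ℝ) * (1 / G B D ^ 2) := by
    intro g hg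
    have hg0 : (0 : ℝ) < g := by exact_mod_cast (mem_Q.1 hg).1
    rw [sum_lam_div hg, div_pow]
    have h2 : (μ g : ℝ) ^ 2 = 1 := by
      exact_mod_cast ArithmeticFunction.moebius_sq_eq_one_of_squarefree (mem_Q.1 hg).2.2.1
    have h3 : (g.totient : ℝ) ≤ g := by exact_mod_cast Nat.totient_le g
    rw [h2]
    calc _ ≤ (g : ℝ) * (1 / (g * G B D) ^ 2) := by gcongr
      _ = _ := by field_simp
  refine (sum_le_sum h1).trans (le_of_eq ?_)
  rw [← sum_mul]
  change G B D * _ = _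
  field_simp

lemma W_nonneg : 0 ≤ W B D := by
  rw [W_eq]; exact sum_nonneg fun _ _ => by positivity

lemma rho_pos (B : ℕ) : 0 < rho B := prod_pos fun _ _ => by positivity

lemma one_le_rho (B : ℕ) : 1 ≤ rho B := by
  have := prod_le_prod (s := B.primeFactors) (f := fun _ => (1 : ℝ))
    (g := fun p : ℕ => 1 + 1 / (p : ℝ)) (fun _ _ => zero_le_one) (fun p _ => by
      have : (0 : ℝ) ≤ 1 / p := by positivity
      linarith only [this])
  simpa [rho] using this

lemma log_le_G (hB : B ≠ 0) : Real.log D ≤ 2 * rho B * G B D := by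
  have h1 : Real.log D ≤ ∑ n ∈ Icc 1 D, 1 / (n : ℝ) := by
    have h2 := log_add_one_le_harmonic D
    rw [harmonic_eq_sum_Icc] at h2
    push_cast at h2
    simp only [one_div]
    refine le_trans ?_ h2
    rcases Nat.eq_zero_or_pos D with rfl | hD
    · simp
    · exact Real.log_le_log (by positivity) (by linarith only [])
  set f : ℕ × Finset ℕ × ℕ → ℕ := fun x => x.1 ^ 2 * ((∏ p ∈ x.2.1, p) * x.2.2) with hf
  have h2 : Icc 1 D ⊆ ((Icc 1 D) ×ˢ B.primeFactors.powerset ×ˢ Q B D).image f := by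
    intro n hn
    rw [mem_Icc] at hn
    obtain ⟨r, s, hr, hs, h3, h4⟩ := Nat.sq_mul_squarefree_of_pos (n := n) hn.1
    obtain ⟨r₂, h5⟩ := Nat.gcd_dvd_left r B
    have hsq : Squarefree (Nat.gcd r B * r₂) := h5 ▸ h4
    have hr₂ : r₂ ∣ r := Dvd.intro_left _ h5.symm
    have hrn : r ≤ n := by rw [← h3]; exact Nat.le_mul_of_pos_left _ (by positivity)
    refine mem_image.2 ⟨(s, (Nat.gcd r B).primeFactors, r₂), ?_, ?_⟩
    · simp only [mem_product, mem_Icc, mem_powerset]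
      refine ⟨⟨hs, ?_⟩, Nat.primeFactors_mono (Nat.gcd_dvd_right _ _) hB, mem_Q.2 ⟨?_, ?_, ?_, ?_⟩⟩
      · nlinarith only [hn, h3, hr, hs, hn.2]
      · exact Nat.pos_of_dvd_of_pos hr₂ hr
      · exact (Nat.le_of_dvd hr hr₂).trans (hrn.trans hn.2)
      · exact h4.squarefree_of_dvd hr₂
      · have h6 := Nat.coprime_of_squarefree_mul hsq
        refine Nat.Coprime.symm (Nat.coprime_of_dvd fun p hp hpB hpr => ?_)
        exact hp.one_lt.ne' (Nat.eq_one_of_dvd_coprimes h6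
          (Nat.dvd_gcd (hpr.trans hr₂) hpB) hpr)
    · simp only [hf]
      rw [Nat.prod_primeFactors_of_squarefree (h4.squarefree_of_dvd (Nat.gcd_dvd_left _ _)), ← h5,
        h3]
  refine h1.trans ((sum_le_sum_of_subset_of_nonneg h2 (fun _ _ _ => by positivity)).trans ?_)
  refine (sum_image_le_of_nonneg (fun _ _ => by positivity)).trans ?_
  have h3 : ∑ x ∈ (Icc 1 D) ×ˢ B.primeFactors.powerset ×ˢ Q B D, 1 / (f x : ℝ) =
      (∑ s ∈ Icc 1 D, ((s : ℝ) ^ 2)⁻¹) * (rho B * G B D) := by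
    rw [rho, prod_one_add, G, sum_mul_sum, sum_product, sum_mul]
    refine sum_congr rfl fun s _ => ?_
    rw [sum_product, mul_sum]
    refine sum_congr rfl fun t _ => ?_
    rw [mul_sum]
    refine sum_congr rfl fun m _ => ?_
    simp only [hf, one_div]
    push_cast
    rw [mul_inv, mul_inv, prod_inv_distrib]
  rw [h3, mul_assoc]
  have h4 : ∑ s ∈ Icc 1 D, ((s : ℝ) ^ 2)⁻¹ ≤ 2 := by
    have := sum_Ioo_inv_sq_le (α := ℝ) 0 (D + 1)
    rw [show Ioo 0 (D + 1) = Icc 1 D from rfl] at this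
    simpa using this
  have h5 : 0 ≤ rho B * G B D := mul_nonneg (rho_pos B).le (sum_nonneg fun _ _ => by positivity)
  gcongr

end Pool.Agent.Work.MP_eac634_nt
end

-- merged part: Pool.Agent.Work.MP_eac634_nt.Arith
section
/-!
# Arithmetic estimates: the weight of a denominator, divisor bound, rationals
-/

open Finset

namespace Pool.Agent.Work.MP_eac634_nt

noncomputable def H (D : ℕ) : ℝ := ∑ k ∈ Icc 1 D, 1 / (k : ℝ)

lemma H_nonneg (D : ℕ) : 0 ≤ H D := sum_nonneg fun _ _ => by positivity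

lemma H_le (D : ℕ) : H D ≤ 1 + Real.log D := by
  have h2 := harmonic_le_one_add_log D
  rw [harmonic_eq_sum_Icc] at h2
  push_cast at h2
  simpa [H] using h2

noncomputable def T (D q : ℕ) : ℝ :=
  ∑ d₁ ∈ Icc 1 D, ∑ d₂ ∈ Icc 1 D, if q ∣ Nat.lcm d₁ d₂ then 1 / (Nat.lcm d₁ d₂ : ℝ) else 0

lemma T_nonneg (D q : ℕ) : 0 ≤ T D q :=
  sum_nonneg fun _ _ => sum_nonneg fun _ _ => by split_ifs <;> positivity

lemma sum_gcd_div_le (D : ℕ) {q : ℕ} (hq : q ≠ 0) :
    ∑ g ∈ Icc 1 D, (Nat.gcd q g : ℝ) / g ≤ q.divisors.card * H D := by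
  have h1 : ∀ g ∈ Icc 1 D, (Nat.gcd q g : ℝ) / g ≤
      ∑ r ∈ q.divisors, if r ∣ g then (r : ℝ) / g else 0 := by
    intro g _
    have := single_le_sum (f := fun r : ℕ => if r ∣ g then (r : ℝ) / g else 0) (s := q.divisors)
      (fun _ _ => by split_ifs <;> positivity)
      (Nat.mem_divisors.2 ⟨Nat.gcd_dvd_left q g, hq⟩)
    simpa [Nat.gcd_dvd_right] using this
  refine (sum_le_sum h1).trans ?_
  rw [sum_comm, ← nsmul_eq_mul, ← sum_const]
  refine sum_le_sum fun r hr => ?_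
  have hr0 : 0 < r := Nat.pos_of_mem_divisors hr
  rw [← sum_filter]
  have h2 : (Icc 1 D).filter (r ∣ ·) ⊆ (Icc 1 D).image (r * ·) := by
    intro m hm
    rw [mem_filter, mem_Icc] at hm
    obtain ⟨k, rfl⟩ := hm.2
    refine mem_image.2 ⟨k, mem_Icc.2 ⟨?_, ?_⟩, rfl⟩
    · exact Nat.pos_of_mul_pos_left hm.1.1
    · exact (Nat.le_mul_of_pos_left _ hr0).trans hm.1.2
  refine (sum_le_sum_of_subset_of_nonneg h2 (fun _ _ _ => by positivity)).trans ?_
  refine (sum_image_le_of_nonneg (fun _ _ => by positivity)).trans ?_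
  refine sum_le_sum fun k _ => le_of_eq ?_
  have : (r : ℝ) ≠ 0 := by positivity
  push_cast
  rw [div_mul_cancel_left₀ this, one_div]

lemma T_le (D : ℕ) {q : ℕ} (hq : q ≠ 0) : T D q ≤ (q.divisors.card * H D) ^ 3 / q := by
  have hq' : (0 : ℝ) < q := by positivity
  set f : ℕ × ℕ × ℕ → ℕ × ℕ := fun x => (x.1 * x.2.1, x.1 * x.2.2) with hf
  set P : Finset (ℕ × ℕ × ℕ) :=
    ((Icc 1 D) ×ˢ (Icc 1 D) ×ˢ (Icc 1 D)).filter (fun x => x.2.1.Coprime x.2.2) with hP
  have h1 : (Icc 1 D) ×ˢ (Icc 1 D) ⊆ P.image f := by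
    rintro ⟨d₁, d₂⟩ h
    simp only [mem_product, mem_Icc] at h
    have hg : 0 < Nat.gcd d₁ d₂ := Nat.gcd_pos_of_pos_left _ h.1.1
    refine mem_image.2 ⟨(Nat.gcd d₁ d₂, d₁ / Nat.gcd d₁ d₂, d₂ / Nat.gcd d₁ d₂), ?_, ?_⟩
    · simp only [hP, mem_filter, mem_product, mem_Icc]
      refine ⟨⟨⟨hg, (Nat.gcd_le_left _ h.1.1).trans h.1.2⟩, ⟨?_, (Nat.div_le_self _ _).trans h.1.2⟩,
        ⟨?_, (Nat.div_le_self _ _).trans h.2.2⟩⟩, Nat.coprime_div_gcd_div_gcd hg⟩
      · exact Nat.div_pos (Nat.gcd_le_left _ h.1.1) hg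
      · exact Nat.div_pos (Nat.gcd_le_right _ h.2.1) hg
    · simp only [hf, Nat.mul_div_cancel' (Nat.gcd_dvd_left _ _),
        Nat.mul_div_cancel' (Nat.gcd_dvd_right _ _)]
  unfold T
  rw [← sum_product']
  refine (sum_le_sum_of_subset_of_nonneg h1 (fun _ _ _ => by split_ifs <;> positivity)).trans ?_
  refine (sum_image_le_of_nonneg (fun _ _ => by split_ifs <;> positivity)).trans ?_
  have h2 : ∀ x ∈ P, (if q ∣ Nat.lcm (f x).1 (f x).2 then 1 / (Nat.lcm (f x).1 (f x).2 : ℝ) else 0)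
      ≤ ((Nat.gcd q x.1 : ℝ) / x.1 * ((Nat.gcd q x.2.1 : ℝ) / x.2.1 *
        ((Nat.gcd q x.2.2 : ℝ) / x.2.2))) / q := by
    rintro ⟨g, u, v⟩ hx
    simp only [hP, mem_filter, mem_product, mem_Icc] at hx
    have h3 : Nat.lcm (g * u) (g * v) = g * (u * v) := by
      rw [Nat.lcm_mul_left, hx.2.lcm_eq_mul]
    simp only [hf, h3]
    split_ifs with h
    · have h4 : q ∣ Nat.gcd q g * (Nat.gcd q u * Nat.gcd q v) := by
        have h5 := Nat.gcd_mul_right_dvd_mul_gcd q g (u * v)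
        rw [Nat.gcd_eq_left h] at h5
        exact h5.trans (Nat.mul_dvd_mul_left _ (Nat.gcd_mul_right_dvd_mul_gcd q u v))
      have hq0 := Nat.pos_of_ne_zero hq
      have h5 : (q : ℝ) ≤ Nat.gcd q g * (Nat.gcd q u * Nat.gcd q v) := by
        exact_mod_cast Nat.le_of_dvd (Nat.mul_pos (Nat.gcd_pos_of_pos_left _ hq0)
          (Nat.mul_pos (Nat.gcd_pos_of_pos_left _ hq0) (Nat.gcd_pos_of_pos_left _ hq0))) h4
      have g0 : (0 : ℝ) < g := by exact_mod_cast hx.1.1.1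
      have u0 : (0 : ℝ) < u := by exact_mod_cast hx.1.2.1.1
      have v0 : (0 : ℝ) < v := by exact_mod_cast hx.1.2.2.1
      push_cast
      rw [le_div_iff₀ hq']
      calc 1 / ((g : ℝ) * (u * v)) * q ≤ 1 / ((g : ℝ) * (u * v)) *
            (Nat.gcd q g * (Nat.gcd q u * Nat.gcd q v)) := by gcongr
        _ = _ := by field_simp
    · positivity
  refine (sum_le_sum h2).trans ?_
  refine (sum_le_sum_of_subset_of_nonneg (filter_subset _ _) (fun _ _ _ => by positivity)).trans ?_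
  rw [← sum_div]
  gcongr
  have h3 : ∑ x ∈ (Icc 1 D) ×ˢ (Icc 1 D) ×ˢ (Icc 1 D), ((Nat.gcd q x.1 : ℝ) / x.1 *
      ((Nat.gcd q x.2.1 : ℝ) / x.2.1 * ((Nat.gcd q x.2.2 : ℝ) / x.2.2))) =
      (∑ g ∈ Icc 1 D, (Nat.gcd q g : ℝ) / g) ^ 3 := by
    rw [pow_succ', sq, sum_mul_sum, sum_product, sum_mul]
    refine sum_congr rfl fun g _ => ?_
    rw [sum_product, mul_sum]
    refine sum_congr rfl fun u _ => ?_
    rw [mul_sum]
  rw [h3]
  gcongr
  exact sum_gcd_div_le D hq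

lemma exists_divisor_bound : ∃ C : ℝ, 1 ≤ C ∧ ∀ q : ℕ, Squarefree q →
    (q.divisors.card : ℝ) ^ 3 ≤ C * √q := by
  refine ⟨8 ^ 64, one_le_pow₀ (by norm_num), fun q hq => ?_⟩
  have h1 : (q.divisors.card : ℝ) ^ 3 = ∏ p ∈ q.primeFactors, (8 : ℝ) := by
    rw [Nat.card_divisors hq.ne_zero]
    push_cast
    rw [← prod_pow]
    refine prod_congr rfl fun p hp => ?_
    rw [Nat.factorization_eq_one_of_squarefree hq (Nat.prime_of_mem_primeFactors hp)
      (Nat.dvd_of_mem_primeFactors hp)]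
    norm_num
  have h2 : √q = ∏ p ∈ q.primeFactors, √p := by
    conv_lhs => rw [← Nat.prod_primeFactors_of_squarefree hq]
    push_cast
    rw [Real.sqrt_prod _ (fun _ _ => by positivity)]
  have h3 : ∏ p ∈ q.primeFactors, (if p < 64 then (8 : ℝ) else 1) ≤ 8 ^ 64 := by
    rw [← prod_filter, prod_const]
    refine pow_le_pow_right₀ (by norm_num) ?_
    calc _ ≤ (range 64).card := card_le_card fun p hp => mem_range.2 (mem_filter.1 hp).2
      _ = 64 := card_range _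
  rw [h1, h2]
  calc _ ≤ ∏ p ∈ q.primeFactors, ((if p < 64 then (8 : ℝ) else 1) * √p) := by
        refine prod_le_prod (fun _ _ => by norm_num) fun p hp => ?_
        have hp1 : (1 : ℝ) ≤ p := by exact_mod_cast (Nat.prime_of_mem_primeFactors hp).one_le
        split_ifs with h
        · have := Real.one_le_sqrt.2 hp1
          linarith only [this]
        · have h4 : (64 : ℝ) ≤ p := by exact_mod_cast not_lt.1 h
          rw [one_mul, Real.le_sqrt (by norm_num) (by linarith)]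
          linarith
    _ ≤ _ := by
        rw [prod_mul_distrib]
        gcongr

lemma squarefree_lcm {a b : ℕ} (ha : Squarefree a) (hb : Squarefree b) :
    Squarefree (Nat.lcm a b) := by
  rw [Nat.squarefree_iff_factorization_le_one (Nat.lcm_ne_zero ha.ne_zero hb.ne_zero),
    Nat.factorization_lcm ha.ne_zero hb.ne_zero]
  intro p
  rw [Finsupp.sup_apply]
  exact sup_le ((Nat.squarefree_iff_factorization_le_one ha.ne_zero).1 ha p)
    ((Nat.squarefree_iff_factorization_le_one hb.ne_zero).1 hb p)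

lemma nz_rat_mul (r : ℚ) (hr : r.den ≠ 1) (c : ℕ) (hc : r.den.Coprime c) :
    1 / (r.den : ℝ) ≤ nz (r * c) := by
  unfold nz
  set z := round ((r : ℝ) * c)
  have hd : (0 : ℝ) < r.den := by exact_mod_cast r.den_pos
  have h1 : (r : ℝ) * c - z = ((r.num * c - z * r.den : ℤ) : ℝ) / r.den := by
    have : (r : ℝ) = r.num / r.den := by exact_mod_cast (Rat.num_div_den r).symm
    rw [this]; push_cast; field_simp
  have h2 : r.num * c - z * r.den ≠ 0 := by
    intro h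
    have h3 : (r.den : ℤ) ∣ r.num * c := ⟨z, by linarith only [h]⟩
    have h4 := r.reduced
    have h5 : r.den ∣ r.num.natAbs * c := by
      have := Int.natAbs_dvd_natAbs.2 h3
      simpa [Int.natAbs_mul] using this
    exact hr (Nat.Coprime.eq_one_of_dvd (Nat.Coprime.mul_right h4.symm hc) h5)
  rw [h1, abs_div, abs_of_pos hd]
  gcongr
  rw [← Int.cast_abs]; exact_mod_cast Int.one_le_abs h2

lemma den_ne_one_of_abs_lt {r : ℚ} (h0 : r ≠ 0) (h1 : |r| < 1) : r.den ≠ 1 := by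
  intro h
  rw [Rat.den_eq_one_iff] at h
  rw [← h] at h0 h1
  have h2 : r.num ≠ 0 := by exact_mod_cast h0
  have h3 : |r.num| < 1 := by exact_mod_cast h1
  have := Int.one_le_abs h2
  omega

lemma card_rat_le (Θ : Finset ℚ) (Y : ℕ) (h : ∀ θ ∈ Θ, 0 < θ ∧ θ < 1 ∧ θ.den ≤ Y) :
    Θ.card ≤ Y ^ 2 := by
  have := card_le_card_of_injOn (s := Θ) (t := range Y ×ˢ Icc 1 Y)
    (fun θ => (θ.num.natAbs, θ.den)) (by
      intro θ hθ
      obtain ⟨h1, h2, h3⟩ := h θ hθ
      have h4 : 0 < θ.num := Rat.num_pos.2 h1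
      have h5 : θ.num < θ.den := Rat.num_lt_denom_iff.2 h2
      simp only [coe_product, coe_range, coe_Icc, Set.mem_prod, Set.mem_Iio, Set.mem_Icc]
      exact ⟨by omega, θ.den_pos, h3⟩) (by
      intro θ hθ θ' hθ' he
      simp only [Prod.mk.injEq] at he
      have h4 : 0 < θ.num := Rat.num_pos.2 (h θ hθ).1
      have h5 : 0 < θ'.num := Rat.num_pos.2 (h θ' hθ').1
      exact Rat.ext (by omega) he.2)
  simpa [sq] using this

end Pool.Agent.Work.MP_eac634_nt
end

-- merged part: Pool.Agent.Work.MP_eac634_nt.Error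
section
/-!
# The Fourier transform of the sieve weights along digit reversal
-/

open Finset

namespace Pool.Agent.Work.MP_eac634_nt

/-- The nonzero frequencies. -/
noncomputable def Th (B D : ℕ) : Finset ℚ :=
  ((range (D ^ 2 + 1) ×ˢ range (D ^ 2 + 1)).image (fun x => (x.1 : ℚ) / x.2)).filter
    (fun θ => 0 < θ ∧ θ < 1 ∧ θ.den ≤ D ^ 2 ∧ θ.den.Coprime B ∧ Squarefree θ.den)

lemma Th_prop {B D : ℕ} {θ : ℚ} (h : θ ∈ Th B D) :
    0 < θ ∧ θ < 1 ∧ θ.den ≤ D ^ 2 ∧ θ.den.Coprime B ∧ Squarefree θ.den := (mem_filter.1 h).2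

lemma nu_sub_W_fourier (b l B D : ℕ) (α : ℝ) :
    ∑ n ∈ range (b ^ l), ((nu B D n - W B D : ℝ) : ℂ) * e (α * R b l n) =
      ∑ d₁ ∈ Q B D, ∑ d₂ ∈ Q B D, ((lam B D d₁ * lam B D d₂ / (Nat.lcm d₁ d₂ : ℝ) : ℝ) : ℂ) *
        ∑ a ∈ Ico 1 (Nat.lcm d₁ d₂), F b l (a / Nat.lcm d₁ d₂) α := by
  have h1 : ∀ n : ℕ, ((nu B D n - W B D : ℝ) : ℂ) =
      ∑ d₁ ∈ Q B D, ∑ d₂ ∈ Q B D, ((lam B D d₁ * lam B D d₂ / (Nat.lcm d₁ d₂ : ℝ) : ℝ) : ℂ) *
        ∑ a ∈ Ico 1 (Nat.lcm d₁ d₂), e (a / Nat.lcm d₁ d₂ * n) := by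
    intro n
    rw [nu, W, sq, sum_filter, sum_mul_sum, ← sum_sub_distrib, Complex.ofReal_sum]
    refine sum_congr rfl fun d₁ h₁ => ?_
    rw [← sum_sub_distrib, Complex.ofReal_sum]
    refine sum_congr rfl fun d₂ h₂ => ?_
    have hp : 0 < Nat.lcm d₁ d₂ := Nat.lcm_pos (mem_Q.1 h₁).1 (mem_Q.1 h₂).1
    have h2 := orth _ hp n
    rw [range_eq_Ico, sum_eq_sum_Ico_succ_bot hp] at h2
    simp only [Nat.cast_zero, zero_mul, e_zero, zero_add, Int.natCast_dvd_natCast,
      Nat.lcm_dvd_iff, Int.cast_natCast] at h2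
    have h3 : ∑ a ∈ Ico 1 (Nat.lcm d₁ d₂), e (a / Nat.lcm d₁ d₂ * n) =
        (if d₁ ∣ n ∧ d₂ ∣ n then (Nat.lcm d₁ d₂ : ℂ) else 0) - 1 := by
      rw [← h2, add_sub_cancel_left]
      refine sum_congr rfl fun a _ => ?_
      congr 1; ring
    rw [h3]
    have h4 : (Nat.lcm d₁ d₂ : ℂ) ≠ 0 := by exact_mod_cast hp.ne'
    by_cases a₁ : d₁ ∣ n <;> by_cases a₂ : d₂ ∣ n <;> simp [a₁, a₂]
    field_simp
  simp only [h1, F, sum_mul, mul_sum]
  rw [sum_comm]
  refine sum_congr rfl fun d₁ _ => ?_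
  rw [sum_comm]
  refine sum_congr rfl fun d₂ _ => ?_
  rw [sum_comm]
  refine sum_congr rfl fun a _ => sum_congr rfl fun n _ => ?_
  rw [e_add, mul_assoc]

lemma sum_frac_le {B D : ℕ} (f : ℝ → ℝ) (hf : ∀ x, 0 ≤ f x) {d₁ d₂ : ℕ} (h₁ : d₁ ∈ Q B D)
    (h₂ : d₂ ∈ Q B D) :
    ∑ a ∈ Ico 1 (Nat.lcm d₁ d₂), f (a / Nat.lcm d₁ d₂) ≤
      ∑ θ ∈ Th B D, if θ.den ∣ Nat.lcm d₁ d₂ then f θ else 0 := by
  rw [mem_Q] at h₁ h₂
  set E := Nat.lcm d₁ d₂ with hE
  have hp : 0 < E := Nat.lcm_pos h₁.1 h₂.1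
  have hp' : (0 : ℚ) < E := by exact_mod_cast hp
  have hle : E ≤ D ^ 2 := (Nat.lcm_le_mul h₁.1 h₂.1).trans (by
    rw [sq]; exact Nat.mul_le_mul h₁.2.1 h₂.2.1)
  have hsq : Squarefree E := squarefree_lcm h₁.2.2.1 h₂.2.2.1
  have hcop : E.Coprime B := (Nat.Coprime.mul_left h₁.2.2.2 h₂.2.2.2).coprime_dvd_left
    (Nat.lcm_dvd_mul _ _)
  have h3 : ∑ a ∈ Ico 1 E, f (a / E) = ∑ θ ∈ (Ico 1 E).image (fun a : ℕ => (a : ℚ) / E), f θ := by
    rw [sum_image]
    · refine sum_congr rfl fun a _ => ?_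
      push_cast; rfl
    · intro a _ a' _ h
      simp only at h
      rw [div_left_inj' hp'.ne'] at h
      exact_mod_cast h
  rw [h3, ← sum_filter]
  refine sum_le_sum_of_subset_of_nonneg ?_ (fun _ _ _ => hf _)
  intro θ hθ
  obtain ⟨a, ha, rfl⟩ := mem_image.1 hθ
  rw [mem_Ico] at ha
  have hd : ((a : ℚ) / E).den ∣ E := by
    have := Rat.den_dvd a E
    rw [Rat.divInt_eq_div, Int.cast_natCast, Int.cast_natCast] at this
    exact Int.natCast_dvd_natCast.1 this
  refine mem_filter.2 ⟨mem_filter.2 ⟨mem_image.2 ⟨(a, E), ?_, rfl⟩, ?_, ?_, ?_, ?_, ?_⟩, hd⟩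
  · simp only [mem_product, mem_range]; omega
  · have : (0 : ℚ) < a := by exact_mod_cast ha.1
    positivity
  · rw [div_lt_one hp']; exact_mod_cast ha.2
  · exact (Nat.le_of_dvd hp hd).trans hle
  · exact hcop.coprime_dvd_left hd
  · exact hsq.squarefree_of_dvd hd

lemma norm_fourier_le (b l B : ℕ) {D : ℕ} (hD : 1 ≤ D) (α : ℝ) :
    ‖∑ n ∈ range (b ^ l), ((nu B D n - W B D : ℝ) : ℂ) * e (α * R b l n)‖ ≤
      ∑ θ ∈ Th B D, T D θ.den * ‖F b l θ α‖ := by
  rw [nu_sub_W_fourier]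
  calc _ ≤ ∑ d₁ ∈ Q B D, ∑ d₂ ∈ Q B D, 1 / (Nat.lcm d₁ d₂ : ℝ) *
        ∑ θ ∈ Th B D, if θ.den ∣ Nat.lcm d₁ d₂ then ‖F b l θ α‖ else 0 := by
        refine (norm_sum_le _ _).trans (sum_le_sum fun d₁ h₁ => ?_)
        refine (norm_sum_le _ _).trans (sum_le_sum fun d₂ h₂ => ?_)
        rw [norm_mul, Complex.norm_real, Real.norm_eq_abs, abs_div, abs_mul, Nat.abs_cast]
        have a₁ := abs_lam_le (B := B) hD (mem_Q.1 h₁).1
        have a₂ := abs_lam_le (B := B) hD (mem_Q.1 h₂).1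
        have a₃ : |lam B D d₁| * |lam B D d₂| ≤ 1 := mul_le_one₀ a₁ (abs_nonneg _) a₂
        gcongr
        exact (norm_sum_le _ _).trans
          (sum_frac_le (fun x => ‖F b l x α‖) (fun _ => norm_nonneg _) h₁ h₂)
    _ ≤ ∑ d₁ ∈ Icc 1 D, ∑ d₂ ∈ Icc 1 D, 1 / (Nat.lcm d₁ d₂ : ℝ) *
        ∑ θ ∈ Th B D, if θ.den ∣ Nat.lcm d₁ d₂ then ‖F b l θ α‖ else 0 := by
        have h0 : ∀ d₁ d₂ : ℕ, 0 ≤ 1 / (Nat.lcm d₁ d₂ : ℝ) *
            ∑ θ ∈ Th B D, if θ.den ∣ Nat.lcm d₁ d₂ then ‖F b l θ α‖ else 0 := fun _ _ =>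
          mul_nonneg (by positivity) (sum_nonneg fun _ _ => by split_ifs <;> positivity)
        refine (sum_le_sum fun d₁ _ => sum_le_sum_of_subset_of_nonneg (filter_subset _ _)
          (fun _ _ _ => h0 _ _)).trans ?_
        exact sum_le_sum_of_subset_of_nonneg (filter_subset _ _)
          (fun _ _ _ => sum_nonneg fun _ _ => h0 _ _)
    _ = _ := by
        simp only [T, sum_mul, mul_sum]
        simp_rw [sum_comm (t := Th B D)]
        refine sum_congr rfl fun θ _ => sum_congr rfl fun d₁ _ => sum_congr rfl fun d₂ _ => ?_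
        split_ifs <;> simp

lemma sum_sq_F_le {b B D : ℕ} (hbB : b ∣ B) (l j : ℕ) (α : ℝ) (hl : D ^ 8 ≤ b ^ l) :
    ∑ θ ∈ Th B D, ‖F b l (θ * b ^ j) α‖ ^ 2 ≤ 2 * ((b : ℝ) ^ l) ^ 2 := by
  have h1 := ls_bound (Th B D) (fun θ => (θ : ℝ) * b ^ j) (b ^ l) (fun n => e (α * R b l n))
    (fun n => (norm_e _).le) ((D : ℝ) ^ 4) (by positivity) (by
      intro θ hθ θ' hθ' hne
      obtain ⟨a1, a2, a3, a4, _⟩ := Th_prop hθ
      obtain ⟨b1, b2, b3, b4, _⟩ := Th_prop hθ'
      have hdvd := Rat.sub_den_dvd θ θ'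
      have h2 := nz_rat_mul (θ - θ') (den_ne_one_of_abs_lt (sub_ne_zero.2 hne)
        (by rw [abs_lt]; constructor <;> linarith only [a1, b2, a2, b1])) (b ^ j)
        (Nat.Coprime.pow_right _ (((Nat.Coprime.mul_left a4 b4).coprime_dvd_left
          hdvd).coprime_dvd_right hbB))
      have h3 : (θ - θ').den ≤ D ^ 4 := (Nat.le_of_dvd (Nat.mul_pos θ.den_pos θ'.den_pos) hdvd).trans
        (by rw [show D ^ 4 = D ^ 2 * D ^ 2 by ring]; exact Nat.mul_le_mul a3 b3)
      have h4 : (0 : ℝ) < (θ - θ').den := by exact_mod_cast (θ - θ').den_pos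
      have h5 : ((θ - θ').den : ℝ) ≤ (D : ℝ) ^ 4 := by exact_mod_cast h3
      have h6 : (θ : ℝ) * b ^ j - θ' * b ^ j = ((θ - θ' : ℚ) : ℝ) * ((b ^ j : ℕ) : ℝ) := by
        push_cast; ring
      rw [h6]
      have h7 : 0 < nz (((θ - θ' : ℚ) : ℝ) * ((b ^ j : ℕ) : ℝ)) := lt_of_lt_of_le (by positivity) h2
      refine (geom_bound _ h7 _).trans ?_
      rw [div_le_iff₀ h4] at h2
      rw [div_le_iff₀ (by positivity)]
      (refine le_of_not_gt fun h_nl => ?_; linarith only [h_nl, h4, h5, h2, mul_nonneg_of_nonpos_of_nonpos (Mathlib.Tactic.Linarith.sub_nonpos_of_le (Mathlib.Tactic.Linarith.natCast_nonneg ℝ (θ - θ').den)) (Mathlib.Tactic.Linarith.sub_nonpos_of_le h2), mul_nonneg_of_nonpos_of_nonpos (Mathlib.Tactic.Linarith.sub_nonpos_of_le (Mathlib.Tactic.Linarith.natCast_nonneg ℝ (θ - θ').den)) (le_of_lt (Mathlib.Tactic.Linarith.sub_neg_of_lt h_nl)), mul_nonneg_of_nonpos_of_nonpos (Mathlib.Tactic.Linarith.sub_nonpos_of_le h2) (Mathlib.Tactic.Linarith.sub_nonpos_of_le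 h5)]))
  have h2 : (Th B D).card ≤ (D ^ 2) ^ 2 := card_rat_le _ _ fun θ hθ =>
    ⟨(Th_prop hθ).1, (Th_prop hθ).2.1, (Th_prop hθ).2.2.1⟩
  have h3 : ((Th B D).card : ℝ) * (D : ℝ) ^ 4 ≤ (b : ℝ) ^ l := by
    have : (Th B D).card * D ^ 4 ≤ b ^ l :=
      le_trans (by calc _ ≤ (D ^ 2) ^ 2 * D ^ 4 := by gcongr
                     _ = D ^ 8 := by ring) hl
    exact_mod_cast this
  have h4 : ∀ θ ∈ Th B D, F b l (θ * b ^ j) α =
      ∑ n ∈ range (b ^ l), e (α * R b l n) * e (n * ((θ : ℝ) * b ^ j)) := by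
    intro θ _
    refine sum_congr rfl fun n _ => ?_
    rw [← e_add]; congr 1; ring
  rw [sum_congr rfl fun θ hθ => by rw [h4 θ hθ]]
  refine h1.trans ?_
  push_cast
  have : (0 : ℝ) ≤ (b : ℝ) ^ l := by positivity
  linarith only [h3, this, mul_nonneg_of_nonpos_of_nonpos (Mathlib.Tactic.Linarith.sub_nonpos_of_le h3) (Mathlib.Tactic.Linarith.sub_nonpos_of_le this)]

lemma sum_F_le {b B D : ℕ} (hb : 0 < b) (hbB : b ∣ B) (l₁ l₂ : ℕ) (α : ℝ) (h₁ : D ^ 8 ≤ b ^ l₁)
    (h₂ : D ^ 8 ≤ b ^ l₂) :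
    ∑ θ ∈ Th B D, ‖F b (l₁ + l₂) θ α‖ ≤ 2 * (b : ℝ) ^ (l₁ + l₂) := by
  simp only [F_split hb, norm_mul]
  have a₁ := sum_sq_F_le hbB l₁ 0 (α * b ^ l₂) h₁
  simp only [pow_zero, mul_one] at a₁
  have a₂ := sum_sq_F_le hbB l₂ l₁ α h₂
  have h3 := sum_mul_sq_le_sq_mul_sq (Th B D) (fun θ => ‖F b l₁ θ (α * b ^ l₂)‖)
    (fun θ => ‖F b l₂ (θ * b ^ l₁) α‖)
  have h4 : (∑ θ ∈ Th B D, ‖F b l₁ θ (α * b ^ l₂)‖ * ‖F b l₂ (θ * b ^ l₁) α‖) ^ 2 ≤
      (2 * (b : ℝ) ^ (l₁ + l₂)) ^ 2 := by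
    refine h3.trans ?_
    calc _ ≤ (2 * ((b : ℝ) ^ l₁) ^ 2) * (2 * ((b : ℝ) ^ l₂) ^ 2) := by gcongr
      _ = _ := by ring
  have h5 : 0 ≤ 2 * (b : ℝ) ^ (l₁ + l₂) := by positivity
  exact (abs_le_of_sq_le_sq' h4 h5).2

theorem exists_error_bound : ∃ C : ℝ, 1 ≤ C ∧ ∀ (b l₁ l₂ D k m : ℕ) (α : ℝ), 2 ≤ b → 1 ≤ D →
    D ^ 8 ≤ b ^ l₁ → D ^ 8 ≤ b ^ l₂ → m * (k + 2) ≤ l₁ + l₂ →
    ‖∑ n ∈ range (b ^ (l₁ + l₂)), ((nu (b * (b ^ 2 - 1)) D n - W (b * (b ^ 2 - 1)) D : ℝ) : ℂ) *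
      e (α * R b (l₁ + l₂) n)‖ ≤
      C * H D ^ 3 * (2 / √(b ^ k) + (b ^ k) ^ 2 * (1 - kap b) ^ m) * b ^ (l₁ + l₂) := by
  obtain ⟨C, hC1, hC⟩ := exists_divisor_bound
  refine ⟨C, hC1, fun b l₁ l₂ D k m α hb hD h₁ h₂ hm => ?_⟩
  set B := b * (b ^ 2 - 1) with hB
  set l := l₁ + l₂ with hl
  have hH := H_nonneg D
  have hk := kap_lt_one hb
  have hb0 : (0 : ℝ) < b := by positivity
  have hT : ∀ θ ∈ Th B D, T D θ.den ≤ C * H D ^ 3 / √θ.den := by
    intro θ hθ
    have h0 : (0 : ℝ) < θ.den := by exact_mod_cast θ.den_pos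
    refine (T_le D θ.den_nz).trans ?_
    rw [mul_pow]
    calc _ ≤ C * √θ.den * H D ^ 3 / θ.den := by gcongr; exact hC _ (Th_prop hθ).2.2.2.2
      _ = _ := by
        have h1 : √(θ.den : ℝ) ≠ 0 := by positivity
        field_simp
        rw [Real.sq_sqrt h0.le, mul_comm]
  have h3 : ∀ θ ∈ Th B D, T D θ.den * ‖F b l θ α‖ ≤ C * H D ^ 3 * (1 / √(b ^ k) * ‖F b l θ α‖ +
      if θ.den ≤ b ^ k then (1 - kap b) ^ m * b ^ l else 0) := by
    intro θ hθ
    have h0 : (1 : ℝ) ≤ θ.den := by exact_mod_cast θ.den_pos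
    have h4 := hT θ hθ
    split_ifs with h
    · obtain ⟨a1, a2, a3, a4, _⟩ := Th_prop hθ
      have h5 := norm_F_small hb k m l θ α hm (fun j => by
        have h6 := nz_rat_mul θ (den_ne_one_of_abs_lt a1.ne' (by rwa [abs_of_pos a1]))
          ((b ^ 2 - 1) * b ^ j) (Nat.Coprime.mul_right (a4.coprime_dvd_right (Dvd.intro_left _ rfl))
            (Nat.Coprime.pow_right _ (a4.coprime_dvd_right (Dvd.intro _ rfl))))
        have h7 : (((b ^ 2 - 1) * b ^ j : ℕ) : ℝ) = (b ^ 2 - 1) * b ^ j := by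
          rw [Nat.cast_mul, Nat.cast_sub (Nat.one_le_pow _ _ (by omega))]; push_cast; ring
        rw [h7, ← mul_assoc] at h6
        refine le_trans ?_ h6
        have : (θ.den : ℝ) ≤ (b : ℝ) ^ k := by exact_mod_cast h
        gcongr)
      have h6 : T D θ.den ≤ C * H D ^ 3 := h4.trans (div_le_self (by positivity)
        (Real.one_le_sqrt.2 h0))
      calc _ ≤ C * H D ^ 3 * (b ^ l * (1 - kap b) ^ m) := by gcongr
        _ ≤ _ := by
          gcongr
          have : 0 ≤ 1 / √((b : ℝ) ^ k) * ‖F b l θ α‖ := by positivity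
          linarith only [this]
    · have h5 : (b : ℝ) ^ k ≤ θ.den := by exact_mod_cast (not_le.1 h).le
      rw [add_zero, ← mul_assoc]
      gcongr
      refine h4.trans ?_
      rw [mul_one_div]
      gcongr
  refine (norm_fourier_le b l B hD α).trans ((sum_le_sum h3).trans ?_)
  rw [← mul_sum, sum_add_distrib, ← mul_sum, ← sum_filter, sum_const, nsmul_eq_mul, mul_assoc
    (C * H D ^ 3)]
  gcongr
  have h4 := sum_F_le (B := B) (by omega) (Dvd.intro _ rfl) l₁ l₂ α h₁ h₂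
  have h5 : (((Th B D).filter (fun θ => θ.den ≤ b ^ k)).card : ℝ) ≤ (b ^ k) ^ 2 := by
    exact_mod_cast card_rat_le _ (b ^ k) fun θ hθ =>
      ⟨(Th_prop (mem_filter.1 hθ).1).1, (Th_prop (mem_filter.1 hθ).1).2.1, (mem_filter.1 hθ).2⟩
  have h6 : 0 ≤ (1 - kap b) ^ m * b ^ l := by
    have : 0 ≤ 1 - kap b := by linarith only [hk]
    positivity
  calc _ ≤ 1 / √((b : ℝ) ^ k) * (2 * b ^ l) + (b ^ k) ^ 2 * ((1 - kap b) ^ m * b ^ l) := by gcongr
    _ = _ := by ring

end Pool.Agent.Work.MP_eac634_nt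
end
end

-- merged part: Pool.Agent.Work.MP_eac634_nt.Primes
section
/-!
# Primes in a residue class in `(n/2, n]`
-/

open Finset Filter Topology

namespace Pool.Agent.Work.MP_eac634_nt

/-- The primes `p ≡ a (mod q)` with `n / 2 < p ≤ n`. -/
def win (q a n : ℕ) : Finset ℕ := (Icc 1 n).filter (fun p => (p.Prime ∧ p ≡ a [MOD q]) ∧ n < 2 * p)

lemma mem_win {q a n p : ℕ} : p ∈ win q a n ↔ p ≤ n ∧ p.Prime ∧ p ≡ a [MOD q] ∧ n < 2 * p := by
  simp only [win, mem_filter, mem_Icc]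
  constructor
  · rintro ⟨⟨_, h1⟩, ⟨h2, h3⟩, h4⟩; exact ⟨h1, h2, h3, h4⟩
  · rintro ⟨h1, h2, h3, h4⟩; exact ⟨⟨h2.one_le, h1⟩, ⟨h2, h3⟩, h4⟩

lemma eventually_win {q a : ℕ} (hq : 0 < q) (ha : a.Coprime q) :
    ∀ᶠ n : ℕ in atTop, (n : ℝ) / (4 * q.totient) ≤ ∑ p ∈ win q a n, Real.log p := by
  have h0 : (0 : ℝ) < q.totient := by exact_mod_cast Nat.totient_pos.2 hq
  have h1 := (Pool.Agent.Lib.ANT.tendsto_theta_AP_div hq ha).comp tendsto_natCast_atTop_atTop
  have h2 := ((Pool.Agent.Lib.ANT.tendsto_theta_AP_div hq ha).comp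
    (tendsto_natCast_atTop_atTop.atTop_div_const (by norm_num : (0 : ℝ) < 2))).div_const 2
  have h3 := (h1.sub h2).eventually (lt_mem_nhds (a := 1 / (4 * (q.totient : ℝ))) (by
    rw [show (q.totient : ℝ)⁻¹ - (q.totient : ℝ)⁻¹ / 2 = 1 / (2 * q.totient) by field_simp; ring]
    gcongr; norm_num))
  filter_upwards [h3, eventually_gt_atTop 0] with n hn hn0
  have hn' : (0 : ℝ) < n := by exact_mod_cast hn0
  simp only [Function.comp, Nat.floor_natCast] at hn
  have h4 : ⌊(n : ℝ) / 2⌋₊ = n / 2 := by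
    have := Nat.floor_div_natCast (K := ℝ) (n : ℝ) 2
    simpa using this
  rw [h4] at hn
  have h5 := sum_filter_add_sum_filter_not ((Icc 1 n).filter (fun p => p.Prime ∧ p ≡ a [MOD q]))
    (fun p => n < 2 * p) (fun p : ℕ => Real.log p)
  rw [filter_filter, filter_filter] at h5
  have h6 : (Icc 1 n).filter (fun p => (p.Prime ∧ p ≡ a [MOD q]) ∧ ¬ n < 2 * p) =
      (Icc 1 (n / 2)).filter (fun p => p.Prime ∧ p ≡ a [MOD q]) := by
    ext p
    simp only [mem_filter, mem_Icc]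
    constructor
    · rintro ⟨h1, h2, h3⟩; exact ⟨⟨h1.1, by omega⟩, h2⟩
    · rintro ⟨h1, h2⟩; exact ⟨⟨h1.1, by omega⟩, h2, by omega⟩
  rw [h6] at h5
  rw [← h5] at hn
  have h7 : ∀ u v : ℝ, (u + v) / n - v / (n / 2) / 2 = u / n := by
    intro u v; field_simp; ring
  rw [h7, lt_div_iff₀ hn'] at hn
  rw [div_eq_mul_one_div, mul_comm]
  exact hn.le

lemma tendsto_pow_nat {b : ℕ} (hb : 2 ≤ b) : Tendsto (fun l : ℕ => b ^ l) atTop atTop :=
  tendsto_pow_atTop_atTop_of_one_lt (by omega)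

/-- Primes with a prescribed number of digits and a prescribed last digit. -/
lemma eventually_exists_prime_digit {b : ℕ} (hb : 2 ≤ b) : ∀ᶠ l : ℕ in atTop,
    ∀ d < b, d.Coprime b → ∃ p : ℕ, p.Prime ∧ b ^ l ≤ p ∧ p < b ^ (l + 1) ∧ p % b = d := by
  have h1 : ∀ᶠ l : ℕ in atTop, ∀ d ∈ range b, d.Coprime b →
      ∃ p : ℕ, p.Prime ∧ b ^ l ≤ p ∧ p < b ^ (l + 1) ∧ p % b = d := by
    rw [eventually_all_finset]
    intro d hd
    by_cases hc : d.Coprime b
    · have h2 := ((tendsto_pow_nat hb).comp (tendsto_add_atTop_nat 1)).eventually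
        (eventually_win (by omega : 0 < b) hc)
      filter_upwards [h2, eventually_ge_atTop 1] with l hl hl1 _
      simp only [Function.comp] at hl
      have h0 : (0 : ℝ) < b.totient := by exact_mod_cast Nat.totient_pos.2 (by omega : 0 < b)
      have h3 : (win b d (b ^ (l + 1))).Nonempty := by
        by_contra h
        rw [not_nonempty_iff_eq_empty] at h
        rw [h, sum_empty] at hl
        have : (0 : ℝ) < ((b ^ (l + 1) : ℕ) : ℝ) / (4 * b.totient) := by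
          have : 0 < b := by omega
          positivity
        linarith only [hl, this]
      obtain ⟨p, hp⟩ := h3
      obtain ⟨a1, a2, a3, a4⟩ := mem_win.1 hp
      refine ⟨p, a2, ?_, lt_of_le_of_ne a1 ?_, ?_⟩
      · rw [pow_succ] at a4
        nlinarith only [hb, a4, Nat.zero_le (b ^ l)]
      · rintro rfl
        have := a2.eq_one_of_pow
        omega
      · rw [Nat.ModEq] at a3
        rw [a3, Nat.mod_eq_of_lt (mem_range.1 hd)]
    · exact Eventually.of_forall fun l h => absurd h hc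
  filter_upwards [h1] with l hl d hd using hl d (mem_range.2 hd)

/-- A prime in `(n/2, n]` not dividing `b`, as soon as `n` exceeds a constant times `log b`. -/
lemma exists_prime_not_dvd : ∃ n₀ : ℕ, ∀ b n : ℕ, b ≠ 0 → n₀ ≤ n → 4 * Real.log b < n →
    ∃ d : ℕ, d ≤ n ∧ n < 2 * d ∧ d.Coprime b := by
  obtain ⟨n₀, h⟩ := eventually_atTop.1 (eventually_win (q := 1) (a := 1) one_pos (by simp))
  refine ⟨n₀, fun b n hb hn hlog => ?_⟩
  by_contra hc
  push Not at hc
  have h1 := h n hn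
  have h2 : win 1 1 n ⊆ b.primeFactors := by
    intro p hp
    obtain ⟨a1, a2, _, a4⟩ := mem_win.1 hp
    exact Nat.mem_primeFactors.2 ⟨a2, by
      by_contra h3
      exact hc p a1 a4 ((Nat.Prime.coprime_iff_not_dvd a2).2 h3), hb⟩
  have h3 : ∑ p ∈ win 1 1 n, Real.log p ≤ ∑ p ∈ b.primeFactors, Real.log p :=
    sum_le_sum_of_subset_of_nonneg h2 fun p _ _ => Real.log_natCast_nonneg p
  have h4 : ∑ p ∈ b.primeFactors, Real.log p ≤ Real.log b := by
    rw [← Real.log_prod (fun p hp => by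
      have := (Nat.prime_of_mem_primeFactors hp).pos
      positivity), ← Nat.cast_prod]
    refine Real.log_le_log ?_ ?_
    · exact_mod_cast prod_pos fun p hp => (Nat.prime_of_mem_primeFactors hp).pos
    · exact_mod_cast Nat.le_of_dvd (Nat.pos_of_ne_zero hb) (Nat.prod_primeFactors_dvd b)
  simp only [Nat.totient_one, Nat.cast_one, mul_one] at h1
  linarith only [hlog, h3, h4, h1]

end Pool.Agent.Work.MP_eac634_nt
end

-- merged part: Pool.Agent.Work.MP_eac634_nt.Sumset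
section
/-!
# Sums of two reversed primes have positive density
-/

open Finset Filter Topology

namespace Pool.Agent.Work.MP_eac634_nt

lemma eventually_small {b : ℕ} (hb : 2 ≤ b) {ε : ℝ} (hε : 0 < ε) : ∀ᶠ j : ℕ in atTop,
    j ^ 2 * (12 * j + 2) ≤ 2 ^ j ∧
    ((2 : ℝ) ^ (j + 1)) ^ 5 * (2 / √(b ^ (12 * j)) + (b ^ (12 * j)) ^ 2 * (1 - kap b) ^ (j ^ 2))
      ≤ ε := by
  have hk := kap_lt_one hb
  have hk0 := kap_pos hb
  have hb' : (2 : ℝ) ≤ b := by exact_mod_cast hb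
  have h1 := (tendsto_pow_const_div_const_pow_of_one_lt 3 (r := 2) (by norm_num)).eventually
    (gt_mem_nhds (a := (1 / 14 : ℝ)) (by norm_num))
  have h2 := ((tendsto_pow_atTop_nhds_zero_of_lt_one (r := 1 - kap b) (by linarith only [hk])
    (by linarith)).const_mul (32 * (b : ℝ) ^ 24)).eventually
    (gt_mem_nhds (a := (1 / 2 : ℝ)) (by norm_num))
  have h3 := ((tendsto_pow_atTop_nhds_zero_of_lt_one (r := (1 / 2 : ℝ)) (by norm_num)
    (by norm_num)).const_mul 96).eventually (gt_mem_nhds (a := ε) (by simpa using hε))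
  filter_upwards [h1, h2, h3, eventually_ge_atTop 1] with j a1 a2 a3 a4
  constructor
  · rw [div_lt_iff₀ (by positivity)] at a1
    have : (14 * j ^ 3 : ℝ) ≤ 2 ^ j := by linarith only [a1]
    have h4 : 14 * j ^ 3 ≤ 2 ^ j := by exact_mod_cast this
    clear * - j h4 a4
    nlinarith only [h4, a4, Nat.zero_le (j ^ 2)]
  · have e1 : (2 : ℝ) ^ (6 * j) ≤ √(b ^ (12 * j)) := by
      rw [Real.le_sqrt (by positivity) (by positivity), ← pow_mul,
        show 6 * j * 2 = 12 * j by ring]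
      gcongr
    have e2 : ((2 : ℝ) ^ (j + 1)) ^ 5 * (2 / √(b ^ (12 * j))) ≤ 64 * (1 / 2) ^ j := by
      clear * - j b e1
      calc _ ≤ ((2 : ℝ) ^ (j + 1)) ^ 5 * (2 / 2 ^ (6 * j)) := by gcongr
        _ = _ := by
          rw [one_div_pow]
          field_simp
          ring
    have e3 : ((2 : ℝ) ^ (j + 1)) ^ 5 * ((b ^ (12 * j)) ^ 2 * (1 - kap b) ^ (j ^ 2)) ≤
        32 * (1 / 2) ^ j := by
      clear * - b hk j hb a2
      have e4 : 0 ≤ 1 - kap b := by linarith only [hk]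
      calc _ = 32 * (32 * (b : ℝ) ^ 24 * (1 - kap b) ^ j) ^ j := by
            have e5 : (32 : ℝ) ^ j = 2 ^ (j * 5) := by
              rw [mul_comm, pow_mul]; norm_num
            rw [mul_pow, mul_pow, ← pow_mul (1 - kap b), ← sq, e5]
            ring
        _ ≤ _ := by gcongr
    rw [mul_add]
    clear * - j b ε a3 e2 e3
    linarith only [a3, e2, e3]

lemma eventually_error {b : ℕ} (hb : 2 ≤ b) {ε : ℝ} (hε : 0 < ε) : ∀ᶠ l : ℕ in atTop, ∀ α : ℝ,
    ‖∑ n ∈ range (b ^ l), ((nu (b * (b ^ 2 - 1)) (b ^ (l / 16)) n -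
      W (b * (b ^ 2 - 1)) (b ^ (l / 16)) : ℝ) : ℂ) * e (α * R b l n)‖ ≤ ε / l ^ 2 * b ^ l := by
  obtain ⟨C, hC1, hC⟩ := exists_error_bound
  have hb' : (2 : ℝ) ≤ b := by exact_mod_cast hb
  have hlog : 0 < Real.log b := Real.log_pos (by linarith only [hb'])
  obtain ⟨J, hJ⟩ := eventually_atTop.1 (eventually_small hb
    (ε := ε / (C * (1 + Real.log b) ^ 3)) (by positivity))
  filter_upwards [eventually_ge_atTop (2 ^ J)] with l hl α
  have hl0 : l ≠ 0 := by
    have : 0 < 2 ^ J := by positivity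
    omega
  set j := Nat.log 2 l with hj
  obtain ⟨a1, a2⟩ := hJ j (Nat.le_log_of_pow_le (by norm_num) hl)
  have a3 : 2 ^ j ≤ l := Nat.pow_log_le_self 2 hl0
  have a4 : l < 2 ^ (j + 1) := Nat.lt_pow_succ_log_self (by norm_num) l
  have h1 := hC b (l / 2) (l - l / 2) (b ^ (l / 16)) (12 * j) (j ^ 2) α hb
    (Nat.one_le_pow _ _ (by omega))
    (by rw [← pow_mul]; exact Nat.pow_le_pow_right (by omega) (by omega))
    (by rw [← pow_mul]; exact Nat.pow_le_pow_right (by omega) (by omega)) (by omega)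
  rw [show l / 2 + (l - l / 2) = l by omega] at h1
  refine h1.trans ?_
  gcongr
  have hl1 : (1 : ℝ) ≤ l := by exact_mod_cast Nat.one_le_iff_ne_zero.2 hl0
  have h2 : H (b ^ (l / 16)) ≤ l * (1 + Real.log b) := by
    clear * - b l hl1 hlog
    refine (H_le _).trans ?_
    push_cast
    rw [Real.log_pow]
    have : ((l / 16 : ℕ) : ℝ) ≤ l := by exact_mod_cast Nat.div_le_self _ _
    linarith only [hl1, hlog, this, mul_nonneg_of_nonpos_of_nonpos (le_of_lt (Mathlib.Tactic.Linarith.sub_neg_of_lt hlog)) (Mathlib.Tactic.Linarith.sub_nonpos_of_le this)]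
  have hH := H_nonneg (b ^ (l / 16))
  have hk := kap_lt_one hb
  set u := 2 / √((b : ℝ) ^ (12 * j)) + (b ^ (12 * j)) ^ 2 * (1 - kap b) ^ (j ^ 2) with hu
  have hu0 : 0 ≤ u := by
    clear * - b hk u j hb
    have : 0 ≤ 1 - kap b := by linarith
    positivity
  have a5 : (l : ℝ) ≤ 2 ^ (j + 1) := by exact_mod_cast a4.le
  have a6 : (l : ℝ) ^ 5 * u ≤ ε / (C * (1 + Real.log b) ^ 3) := le_trans (by clear * - u l j hl0 a5 b hb hk C a2 ε; gcongr) a2
  rw [le_div_iff₀ (by positivity)] at a6 ⊢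
  calc _ ≤ C * (l * (1 + Real.log b)) ^ 3 * u * l ^ 2 := by clear * - l C b u hH h2 hC1 j hb hk hl0 a6 ε; gcongr
    _ = (l : ℝ) ^ 5 * u * (C * (1 + Real.log b) ^ 3) := by ring
    _ ≤ ε := a6

lemma isSum_two {b p q : ℕ} (hp : p.Prime) (hq : q.Prime) :
    IsSumOfRevPrimes b 2 (rev b p + rev b q) :=
  ⟨[p, q], le_rfl, by simp [hp, hq], by simp⟩

theorem eventually_sumset {b : ℕ} (hb : 2 ≤ b) : ∀ᶠ l : ℕ in atTop, ∃ S : Finset ℕ,
    (∀ s ∈ S, s < 2 * b ^ l ∧ IsSumOfRevPrimes b 2 s) ∧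
      (b : ℝ) ^ l / (512 * rho (b * (b ^ 2 - 1))) ≤ S.card := by
  classical
  have hb' : (2 : ℝ) ≤ b := by exact_mod_cast hb
  have hlog : 0 < Real.log b := Real.log_pos (by linarith only [hb'])
  have h1 := (tendsto_pow_nat hb).eventually (eventually_win (q := 1) (a := 1) one_pos (by simp))
  filter_upwards [h1, eventually_error hb (ε := 1 / (1 + Real.log b) ^ 2) (by positivity),
    eventually_ge_atTop 16] with l a1 a2 a3
  set B := b * (b ^ 2 - 1) with hB
  have hB0 : B ≠ 0 := by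
    clear * - b hb l
    have : 1 < b ^ 2 := by nlinarith only [hb]
    exact Nat.mul_ne_zero (by omega) (by omega)
  set D := b ^ (l / 16) with hD
  have hD1 : 1 ≤ D := Nat.one_le_pow _ _ (by omega)
  set X : ℝ := (b : ℝ) ^ l with hX
  have hX0 : 0 < X := by positivity
  set P := win 1 1 (b ^ l) with hP
  obtain ⟨l', rfl⟩ : ∃ l', l = l' + 1 := ⟨l - 1, by omega⟩
  have hPmem : ∀ p ∈ P, p.Prime ∧ b ^ l' ≤ p ∧ p < b ^ (l' + 1) ∧ D < p := by
    clear * - P b l' D hb a3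
    intro p hp
    obtain ⟨c1, c2, _, c4⟩ := mem_win.1 hp
    have c5 : b ^ l' < p := by
      rw [pow_succ] at c4
      nlinarith only [c4, hb, Nat.zero_le (b ^ l')]
    refine ⟨c2, c5.le, lt_of_le_of_ne c1 ?_, lt_of_le_of_lt ?_ c5⟩
    · rintro rfl
      have := c2.eq_one_of_pow
      omega
    · exact Nat.pow_le_pow_right (by omega) (by omega)
  set l := l' + 1 with hl
  have hl' : (16 : ℝ) ≤ l := by exact_mod_cast a3
  set A := P.image (R b l) with hA
  have hcard : A.card = P.card := card_image_of_injOn fun p hp q hq h =>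
    R_inj (by omega) l p q (hPmem p hp).2.2.1 (hPmem q hq).2.2.1 h
  have hAlt : ∀ a ∈ A, a < b ^ l := by
    intro a ha
    obtain ⟨p, _, rfl⟩ := mem_image.1 ha
    exact R_lt (by omega) _ _
  set S := (A ×ˢ A).image (fun x => x.1 + x.2) with hS
  have hSmem : ∀ s ∈ S, s < 2 * b ^ l ∧ IsSumOfRevPrimes b 2 s := by
    intro s hs
    obtain ⟨⟨x, y⟩, hxy, rfl⟩ := mem_image.1 hs
    rw [mem_product] at hxy
    refine ⟨by have := hAlt x hxy.1; have := hAlt y hxy.2; simp only; omega, ?_⟩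
    obtain ⟨p, hp, h3⟩ := mem_image.1 hxy.1
    obtain ⟨q, hq, h4⟩ := mem_image.1 hxy.2
    simp only at h3 h4 ⊢
    rw [← h3, ← h4, ← rev_eq_R hb (hPmem p hp).2.1 (hPmem p hp).2.2.1,
      ← rev_eq_R hb (hPmem q hq).2.1 (hPmem q hq).2.2.1]
    exact isSum_two (hPmem p hp).1 (hPmem q hq).1
  refine ⟨S, hSmem, ?_⟩
  -- lower bound for the number of primes
  have hAge : X ≤ 4 * (l * Real.log b) * A.card := by
    clear * - P l b l' D hPmem X A hcard a1
    simp only [Nat.totient_one, Nat.cast_one, mul_one] at a1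
    have h2 : ∑ p ∈ P, Real.log p ≤ ∑ p ∈ P, l * Real.log b := by
      refine sum_le_sum fun p hp => ?_
      rw [← Real.log_pow]
      refine Real.log_le_log (by exact_mod_cast (hPmem p hp).1.pos) ?_
      exact_mod_cast (hPmem p hp).2.2.1.le
    rw [sum_const, nsmul_eq_mul, ← hcard] at h2
    push_cast at a1
    linarith only [h2, a1]
  -- the sieve inequality
  have hconv := conv_bound (2 * b ^ l) (by positivity) A S (range (b ^ l))
    (fun n => nu B D n - W B D) (R b l) (fun a ha => by have := hAlt a ha; omega)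
    (fun s hs => (hSmem s hs).1)
    (fun a ha n _ => by have := hAlt a ha; have := R_lt (b := b) (by omega) l n; omega) _ a2
  have hlow : (A.card : ℝ) ^ 2 - W B D * (A.card * S.card) ≤
      ∑ a ∈ A, ∑ n ∈ range (b ^ l), (if a + R b l n ∈ S then nu B D n - W B D else 0) := by
    clear * - A B D S b l P l' hPmem hD1 hcard hb
    have h2 : ∀ a ∈ A, (A.card : ℝ) - W B D * S.card ≤
        ∑ n ∈ range (b ^ l), (if a + R b l n ∈ S then nu B D n - W B D else 0) := by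
      intro a ha
      rw [← sum_filter, sum_sub_distrib, sum_const, nsmul_eq_mul]
      have h3 : P ⊆ (range (b ^ l)).filter (fun n => a + R b l n ∈ S) := by
        intro p hp
        exact mem_filter.2 ⟨mem_range.2 (hPmem p hp).2.2.1,
          mem_image.2 ⟨(a, R b l p), mem_product.2 ⟨ha, mem_image_of_mem _ hp⟩, rfl⟩⟩
      have h4 : (A.card : ℝ) ≤ ∑ n ∈ (range (b ^ l)).filter (fun n => a + R b l n ∈ S),
          nu B D n := by
        refine le_trans ?_ (sum_le_sum_of_subset_of_nonneg h3 fun _ _ _ => nu_nonneg _)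
        rw [sum_congr rfl fun p hp => nu_prime hD1 (hPmem p hp).1 (hPmem p hp).2.2.2, hcard]
        simp
      have h5 : (((range (b ^ l)).filter (fun n => a + R b l n ∈ S)).card : ℝ) ≤ S.card := by
        exact_mod_cast card_le_card_of_injOn (fun n => a + R b l n)
          (fun n hn => (mem_filter.1 (mem_coe.1 hn)).2) (fun m hm n hn h =>
            R_inj (by omega) l m n (mem_range.1 (mem_filter.1 (mem_coe.1 hm)).1)
              (mem_range.1 (mem_filter.1 (mem_coe.1 hn)).1) (by simpa using h))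
      have h6 := mul_le_mul_of_nonneg_left h5 (W_nonneg (B := B) (D := D))
      linarith only [h4, h6]
    refine le_trans (le_of_eq ?_) (sum_le_sum h2)
    rw [sum_const, nsmul_eq_mul]
    ring
  have hrho := one_le_rho B
  have hW : W B D * (l * Real.log b) ≤ 64 * rho B := by
    clear * - B D hD1 hB0 l b l' a3 hD hlog hrho
    have h2 := W_le (B := B) hD1
    have h3 := log_le_G (D := D) hB0
    have h4 := one_le_G (B := B) hD1
    rw [hD] at h3
    push_cast at h3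
    rw [Real.log_pow, ← hD] at h3
    have h5 : (l : ℝ) ≤ 32 * ((l / 16 : ℕ) : ℝ) := by
      have : l ≤ 32 * (l / 16) := by omega
      exact_mod_cast this
    have h6 : (l : ℝ) * Real.log b ≤ 64 * rho B * G B D := by linarith only [h3, hlog, h5, mul_nonneg_of_nonpos_of_nonpos (le_of_lt (Mathlib.Tactic.Linarith.sub_neg_of_lt hlog)) (Mathlib.Tactic.Linarith.sub_nonpos_of_le h5)]
    calc _ ≤ 1 / G B D * (64 * rho B * G B D) := by gcongr
      _ = _ := by field_simp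
  by_contra hc
  push Not at hc
  set a : ℝ := (A.card : ℝ) with ha
  set s : ℝ := (S.card : ℝ) with hs
  set L : ℝ := l * Real.log b with hL
  have hL0 : 0 < L := mul_pos (by linarith only [hl']) hlog
  have hs0 : 0 ≤ s := by clear * - S s; positivity
  have ha0 : 0 < a := by
    clear * - a A X L b l' l hX0 hAge
    by_contra h
    have : a = 0 := le_antisymm (not_lt.1 h) (by positivity)
    rw [this] at hAge
    linarith
  rw [lt_div_iff₀ (by linarith only [hrho])] at hc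
  have h7 : W B D * s ≤ a / 2 := by
    have : W B D * s * L ≤ a / 2 * L := by
      linarith only [mul_le_mul_of_nonneg_left hW hs0, hc, hAge]
    exact le_of_mul_le_mul_right this hL0
  set η : ℝ := 1 / (1 + Real.log b) ^ 2 / l ^ 2 with hη
  have hη0 : 0 ≤ η := div_nonneg (div_nonneg zero_le_one (sq_nonneg _)) (sq_nonneg _)
  have h8 : a ^ 2 / 2 ≤ η * X * √(a * s) := by
    linarith only [hlow.trans hconv, mul_le_mul_of_nonneg_left h7 ha0.le]
  have h9 : a ^ 4 / 4 ≤ η ^ 2 * X ^ 2 * (a * s) := by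
    clear * - a η X s ha0 h8 b l l' S
    have := pow_le_pow_left₀ (by positivity) h8 2
    rw [mul_pow, mul_pow, Real.sq_sqrt (by positivity)] at this
    linarith only [this]
  have h10 : a ^ 3 ≤ 4 * η ^ 2 * X ^ 2 * s := by
    clear * - a η X s b l l' h9 ha0
    have : a ^ 3 * a ≤ 4 * η ^ 2 * X ^ 2 * s * a := by linarith only [h9]
    exact le_of_mul_le_mul_right this ha0
  have h11 : 512 * s ≤ X := by linarith only [hc, mul_le_mul_of_nonneg_left hrho hs0]
  have h12 : X ^ 3 ≤ 64 * L ^ 3 * a ^ 3 := by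
    clear * - X L a hX0 hAge b l' l
    have := pow_le_pow_left₀ hX0.le hAge 3
    linarith only [this, show (4 * L * a) ^ 3 = 64 * L ^ 3 * a ^ 3 by ring]
  have h13 : η ^ 2 * L ^ 3 ≤ 1 := by
    clear * - L b l hL hl' η hη a3 hlog hL0 l'
    have e1 : L ≤ (1 + Real.log b) * l := by rw [hL]; linarith only [hl']
    have e2 : η = 1 / ((1 + Real.log b) * l) ^ 2 := by rw [hη]; field_simp
    have e3 : 1 ≤ (1 + Real.log b) * l := by linarith only [hl', hL0]
    set t := (1 + Real.log b) * l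
    rw [e2]
    calc _ ≤ (1 / t ^ 2) ^ 2 * t ^ 3 := by gcongr
      _ = 1 / t := by field_simp
      _ ≤ 1 := by rw [div_le_one (by linarith only [hl', hL0])]; exact e3
  have h14 : X ^ 3 ≤ 256 * (η ^ 2 * L ^ 3) * X ^ 2 * s := by
    clear * - X L η s a h12 h10 l b l' hlog
    calc X ^ 3 ≤ 64 * L ^ 3 * (4 * η ^ 2 * X ^ 2 * s) := h12.trans (by gcongr)
      _ = _ := by ring
  have h15 : X ^ 3 ≤ 256 * 1 * X ^ 2 * s := h14.trans (by clear * - s η L X h13 b hb l' S h14; gcongr)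
  have h16 : 0 < X ^ 2 := pow_pos hX0 2
  clear * - X s b l' h15 h11 hX0 h16
  linarith only [h15, h11, hX0, h16, mul_nonneg_of_nonpos_of_nonpos (Mathlib.Tactic.Linarith.sub_nonpos_of_le (sq_nonneg X)) (Mathlib.Tactic.Linarith.sub_nonpos_of_le h11), mul_pos_of_neg_of_neg (Mathlib.Tactic.Linarith.sub_neg_of_lt hX0) (Mathlib.Tactic.Linarith.sub_neg_of_lt h16)]

end Pool.Agent.Work.MP_eac634_nt
end

-- merged part: Pool.Agent.Work.MP_eac634_nt.Main
section
-- merged part: Pool.Agent.Work.MP_eac634_nt.Additive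
section
/-!
# The additive part of the argument
-/

open Finset
open scoped Pointwise

namespace Pool.Agent.Work.MP_eac634_nt

lemma IsSumOfRevPrimes.add {b K₁ K₂ N₁ N₂ : ℕ} (h₁ : IsSumOfRevPrimes b K₁ N₁)
    (h₂ : IsSumOfRevPrimes b K₂ N₂) : IsSumOfRevPrimes b (K₁ + K₂) (N₁ + N₂) := by
  obtain ⟨l₁, a1, a2, a3⟩ := h₁
  obtain ⟨l₂, b1, b2, b3⟩ := h₂
  refine ⟨l₁ ++ l₂, by simp; omega, fun p hp => ?_, by simp [a3, b3]⟩
  rcases List.mem_append.1 hp with h | h
  exacts [a2 p h, b2 p h]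

lemma IsSumOfRevPrimes.mono {b K K' N : ℕ} (h : IsSumOfRevPrimes b K N) (hK : K ≤ K') :
    IsSumOfRevPrimes b K' N := by
  obtain ⟨l, a1, a2, a3⟩ := h
  exact ⟨l, a1.trans hK, a2, a3⟩

lemma isSum_zero (b K : ℕ) : IsSumOfRevPrimes b K 0 := ⟨[], by simp, by simp, by simp⟩

lemma isSum_one {b p : ℕ} (hp : p.Prime) : IsSumOfRevPrimes b 1 (rev b p) :=
  ⟨[p], le_rfl, by simp [hp], by simp⟩

lemma IsSumOfRevPrimes.mul {b r : ℕ} (h : IsSumOfRevPrimes b 1 r) (j : ℕ) :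
    IsSumOfRevPrimes b j (j * r) := by
  induction j with
  | zero => simpa using isSum_zero b 0
  | succ j ih => rw [add_mul, one_mul]; exact ih.add h

lemma rev_of_lt {b n : ℕ} (h0 : n ≠ 0) (h : n < b) : rev b n = n := by
  rw [rev, Nat.digits_of_lt b n h0 h]; simp

lemma isSum_two_three {b : ℕ} (hb : 2 ≤ b) : IsSumOfRevPrimes b 2 2 ∧ IsSumOfRevPrimes b 2 3 := by
  have h2 := isSum_one (b := b) Nat.prime_two
  have h3 := isSum_one (b := b) Nat.prime_three
  rcases (by omega : b = 2 ∨ b = 3 ∨ 4 ≤ b) with rfl | rfl | h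
  · have e2 : rev 2 2 = 1 := by simp [rev, Nat.ofDigits]
    have e3 : rev 2 3 = 3 := by simp [rev, Nat.ofDigits]
    rw [e2] at h2; rw [e3] at h3
    exact ⟨h2.add h2, h3.mono (by norm_num)⟩
  · have e2 : rev 3 2 = 2 := rev_of_lt (by norm_num) (by norm_num)
    have e3 : rev 3 3 = 1 := by simp [rev, Nat.ofDigits]
    rw [e2] at h2; rw [e3] at h3
    exact ⟨h2.mono (by norm_num), h2.add h3⟩
  · rw [rev_of_lt (by norm_num) (by omega)] at h2 h3
    exact ⟨h2.mono (by norm_num), h3.mono (by norm_num)⟩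

/-- Freiman's `3/2` theorem for a set containing two consecutive residues. -/
lemma doubling (m : ℕ) [NeZero m] (T : Finset (ZMod m)) (x : ZMod m) (hx : x ∈ T)
    (hx1 : x + 1 ∈ T) : T + T = univ ∨ 3 * T.card ≤ 2 * (T + T).card := by
  by_cases h : 3 * T.card ≤ 2 * (T + T).card
  · exact Or.inr h
  left
  push Not at h
  have h1 : ∀ d ∈ T - T, T.card < 2 * (T.filter (fun t => t + d ∈ T)).card := by
    intro d hd
    obtain ⟨u, hu, v, hv, rfl⟩ := mem_sub.1 hd
    have e1 : (T.image (u + ·) ∪ T.image (v + ·)).card ≤ (T + T).card := by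
      refine card_le_card (union_subset ?_ ?_)
      · intro y hy
        obtain ⟨t, ht, rfl⟩ := mem_image.1 hy
        exact add_mem_add hu ht
      · intro y hy
        obtain ⟨t, ht, rfl⟩ := mem_image.1 hy
        exact add_mem_add hv ht
    have e2 := card_union_add_card_inter (T.image (u + ·)) (T.image (v + ·))
    rw [card_image_of_injective _ (add_right_injective u),
      card_image_of_injective _ (add_right_injective v)] at e2
    have e3 : (T.image (u + ·) ∩ T.image (v + ·)).card ≤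
        (T.filter (fun t => t + (u - v) ∈ T)).card := by
      refine le_trans (card_le_card ?_)
        (card_image_le (s := T.filter (fun t => t + (u - v) ∈ T)) (f := (u + ·)))
      intro y hy
      rw [mem_inter] at hy
      obtain ⟨t, ht, rfl⟩ := mem_image.1 hy.1
      obtain ⟨t', ht', e⟩ := mem_image.1 hy.2
      refine mem_image.2 ⟨t, mem_filter.2 ⟨ht, ?_⟩, rfl⟩
      have : t + (u - v) = t' := by linear_combination -e
      rwa [this]
    omega
  have h2 : ∀ d₁ ∈ T - T, ∀ d₂ ∈ T - T, d₁ + d₂ ∈ T - T := by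
    intro d₁ hd₁ d₂ hd₂
    have hd₂' : -d₂ ∈ T - T := by
      obtain ⟨u, hu, v, hv, rfl⟩ := mem_sub.1 hd₂
      rw [neg_sub]; exact sub_mem_sub hv hu
    have e1 := h1 d₁ hd₁
    have e2 := h1 _ hd₂'
    have e3 := card_union_add_card_inter (T.filter (fun t => t + d₁ ∈ T))
      (T.filter (fun t => t + -d₂ ∈ T))
    have e4 : (T.filter (fun t => t + d₁ ∈ T) ∪ T.filter (fun t => t + -d₂ ∈ T)).card ≤ T.card :=
      card_le_card (union_subset (filter_subset _ _) (filter_subset _ _))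
    obtain ⟨t, ht⟩ : (T.filter (fun t => t + d₁ ∈ T) ∩ T.filter (fun t => t + -d₂ ∈ T)).Nonempty :=
      card_pos.1 (by omega)
    rw [mem_inter, mem_filter, mem_filter] at ht
    have : d₁ + d₂ = (t + d₁) - (t + -d₂) := by ring
    rw [this]; exact sub_mem_sub ht.1.2 ht.2.2
  have h3 : ∀ n : ℕ, (n : ZMod m) ∈ T - T := by
    intro n
    induction n with
    | zero => simpa using sub_mem_sub hx hx
    | succ n ih =>
      push_cast
      exact h2 _ ih _ (by simpa using sub_mem_sub hx1 hx)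
  have h4 : ∀ d : ZMod m, T.card < 2 * (T.filter (fun t => t + d ∈ T)).card := fun d =>
    h1 d (by simpa using h3 d.val)
  have h5 : ∑ d : ZMod m, (T.filter (fun t => t + d ∈ T)).card = T.card * T.card := by
    simp only [card_filter]
    rw [sum_comm, ← smul_eq_mul, ← sum_const]
    refine sum_congr rfl fun t _ => ?_
    rw [← card_filter, ← card_image_of_injective _ (add_right_injective t)]
    congr 1
    ext y
    simp only [mem_image, mem_filter, mem_univ, true_and]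
    exact ⟨fun ⟨d, h1, h2⟩ => h2 ▸ h1, fun hy => ⟨y - t, by simpa using hy, by ring⟩⟩
  have h6 : Fintype.card (ZMod m) < 2 * T.card := by
    have e1 : ∑ _d : ZMod m, T.card < ∑ d : ZMod m, 2 * (T.filter (fun t => t + d ∈ T)).card :=
      sum_lt_sum_of_nonempty univ_nonempty fun d _ => h4 d
    rw [← mul_sum, h5, sum_const, smul_eq_mul, card_univ, ← mul_assoc] at e1
    exact lt_of_mul_lt_mul_right e1 (Nat.zero_le _)
  refine eq_univ_of_forall fun y => ?_
  have e3 := card_union_add_card_inter T (T.image (y - ·))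
  rw [card_image_of_injective _ sub_right_injective] at e3
  have e4 := card_le_univ (T ∪ T.image (y - ·))
  obtain ⟨t, ht⟩ : (T ∩ T.image (y - ·)).Nonempty := card_pos.1 (by omega)
  rw [mem_inter] at ht
  obtain ⟨t', ht', e⟩ := mem_image.1 ht.2
  have : y = t + t' := by rw [← e]; ring
  rw [this]; exact add_mem_add ht.1 ht'

lemma iterate_doubling (b m Y : ℕ) [NeZero m] (T : Finset (ZMod m)) (x : ZMod m) (hx : x ∈ T)
    (hx1 : x + 1 ∈ T) (hT : ∀ r ∈ T, ∃ s : ℕ, (s : ZMod m) = r ∧ s ≤ Y ∧ IsSumOfRevPrimes b 2 s)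
    (i : ℕ) : ∃ (U : Finset (ZMod m)) (y : ZMod m), y ∈ U ∧ y + 1 ∈ U ∧
      (∀ r ∈ U, ∃ s : ℕ, (s : ZMod m) = r ∧ s ≤ 2 ^ i * Y ∧ IsSumOfRevPrimes b (2 * 2 ^ i) s) ∧
      (U = univ ∨ 3 ^ i * T.card ≤ 2 ^ i * U.card) := by
  induction i with
  | zero => exact ⟨T, x, hx, hx1, by simpa using hT, Or.inr (by simp)⟩
  | succ i ih =>
    obtain ⟨U, y, h1, h2, h3, h4⟩ := ih
    refine ⟨U + U, y + y, add_mem_add h1 h1, by rw [add_assoc]; exact add_mem_add h1 h2, ?_, ?_⟩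
    · intro r hr
      obtain ⟨u, hu, v, hv, rfl⟩ := mem_add.1 hr
      obtain ⟨s, a1, a2, a3⟩ := h3 u hu
      obtain ⟨s', b1, b2, b3⟩ := h3 v hv
      refine ⟨s + s', by push_cast; rw [a1, b1], by rw [pow_succ]; linarith only [a2, b2],
        (a3.add b3).mono (by rw [pow_succ]; omega)⟩
    · rcases doubling m U y h1 h2 with h | h
      · exact Or.inl h
      · rcases h4 with rfl | h4
        · left
          refine eq_univ_of_forall fun z => ?_
          simp
        · right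
          rw [pow_succ, pow_succ]
          clear * - i m T U h4 h
          linarith only [h4, h, Nat.mul_le_mul_left (2 ^ i) h]

lemma cover {b X m t : ℕ} (hb : 2 ≤ b) (hX : 2 ≤ X) (hm1 : X ≤ 2 * m) (hm2 : m ≤ X)
    (hm : IsSumOfRevPrimes b 1 m) (S : Finset ℕ)
    (hS : ∀ s ∈ S, s < 2 * X ∧ IsSumOfRevPrimes b 2 s) (ht : 2 ^ t * (4 * X) < 3 ^ t * S.card)
    (N : ℕ) (hN : 2 ^ t * (2 * X) ≤ N) : IsSumOfRevPrimes b (2 * 2 ^ t + N / m) N := by
  have hm0 : 0 < m := by omega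
  have : NeZero m := ⟨hm0.ne'⟩
  set T : Finset (ZMod m) := (S ∪ {2, 3}).image (fun s : ℕ => (s : ZMod m)) with hT
  obtain ⟨U, y, -, -, h3, h4⟩ := iterate_doubling b m (2 * X) T 2
    (mem_image.2 ⟨2, by simp, by simp⟩) (mem_image.2 ⟨3, by simp, by norm_num⟩) (by
      intro r hr
      obtain ⟨s, hs, rfl⟩ := mem_image.1 hr
      refine ⟨s, rfl, ?_⟩
      simp only [mem_union, mem_insert, mem_singleton] at hs
      rcases hs with h | rfl | rfl
      · exact ⟨(hS s h).1.le, (hS s h).2⟩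
      · exact ⟨by omega, (isSum_two_three hb).1⟩
      · exact ⟨by omega, (isSum_two_three hb).2⟩) t
  have h5 : S.card ≤ 4 * T.card := by
    refine (card_le_mul_card_image (f := fun s : ℕ => (s : ZMod m)) S 4 ?_).trans ?_
    · intro r _
      rw [← card_range 4]
      refine card_le_card_of_injOn (· / m) ?_ ?_
      · intro s hs
        have := (hS s (mem_filter.1 (mem_coe.1 hs)).1).1
        simp only [coe_range, Set.mem_Iio]
        rw [Nat.div_lt_iff_lt_mul hm0]; omega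
      · intro s hs s' hs' h
        have e1 := (mem_filter.1 (mem_coe.1 hs)).2
        have e2 := (mem_filter.1 (mem_coe.1 hs')).2
        have e3 : s % m = s' % m := (ZMod.natCast_eq_natCast_iff' s s' m).1 (e1.trans e2.symm)
        simp only at h
        rw [← Nat.div_add_mod s m, ← Nat.div_add_mod s' m, h, e3]
    · gcongr
      exact image_subset_image subset_union_left
  have h6 : U = univ := by
    clear * - m U this t T h4 X b hm2 S N h5 ht
    rcases h4 with h | h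
    · exact h
    · exfalso
      have e1 : U.card ≤ X := by
        have := card_le_univ U
        rw [ZMod.card] at this
        omega
      have e2 := Nat.mul_le_mul_left (3 ^ t) h5
      have e3 := Nat.mul_le_mul_left (2 ^ t) e1
      linarith only [ht, h, e2, e3]
  obtain ⟨s, a1, a2, a3⟩ := h3 (N : ZMod m) (h6 ▸ mem_univ _)
  have hsN : s ≤ N := a2.trans hN
  obtain ⟨j, hj⟩ : m ∣ N - s := (Nat.modEq_iff_dvd' hsN).1 ((ZMod.natCast_eq_natCast_iff s N m).1 a1)
  have e1 : N = s + j * m := by rw [mul_comm]; omega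
  have e2 : j ≤ N / m := by
    rw [Nat.le_div_iff_mul_le hm0]; omega
  have := (a3.add (hm.mul j)).mono (Nat.add_le_add_left e2 _)
  rwa [← e1] at this

lemma greedy {b X n₁ : ℕ} (hX : 0 < X)
    (hd : ∀ d < b, d.Coprime b → ∃ r, IsSumOfRevPrimes b 1 r ∧ d * X ≤ r ∧ r < (d + 1) * X)
    (hn : ∀ n, n₁ ≤ n → ∃ d : ℕ, d ≤ n ∧ n < 2 * d ∧ d.Coprime b) (s : ℕ) :
    ∀ M : ℕ, M / X < 2 ^ s → M / X < b →
      ∃ M' ≤ M, M' / X ≤ n₁ ∧ IsSumOfRevPrimes b s (M - M') := by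
  induction s with
  | zero =>
    intro M h1 _
    exact ⟨M, le_rfl, by simp only [pow_zero] at h1; omega, by simpa using isSum_zero b 0⟩
  | succ s ih =>
    intro M h1 h2
    by_cases h : M / X ≤ n₁
    · exact ⟨M, le_rfl, h, by simpa using isSum_zero b _⟩
    obtain ⟨d, a1, a2, a3⟩ := hn (M / X - 1) (by omega)
    obtain ⟨r, b1, b2, b3⟩ := hd d (by omega) a3
    have e1 : M / X * X ≤ M := Nat.div_mul_le_self _ _
    have e2 : M < (M / X + 1) * X := by
      rw [mul_comm]; exact Nat.lt_mul_div_succ M hX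
    have e3 : (d + 1) * X ≤ M / X * X := Nat.mul_le_mul_right _ (by omega)
    have e4 : (M - r) / X < M / X - d + 1 := by
      rw [Nat.div_lt_iff_lt_mul hX]
      have : (M / X + 1) * X = (M / X - d + 1) * X + d * X := by
        rw [← add_mul]; congr 1; omega
      omega
    obtain ⟨M', c1, c2, c3⟩ := ih (M - r) (by rw [pow_succ] at h1; omega) (by omega)
    refine ⟨M', by omega, c2, ?_⟩
    have := c3.add b1
    rwa [show M - r - M' + r = M - M' by clear * - M r M' b X n₁ s d b3 e1 e3 c1 this; omega] at this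

lemma prod_odd_le (S : Finset ℕ) : (∀ p ∈ S, 3 ≤ p ∧ p % 2 = 1) →
    (∏ p ∈ S, (1 + 1 / (p : ℝ))) ^ 2 ≤ 2 * S.card + 1 := by
  induction S using Finset.induction_on_max with
  | empty => simp
  | insert a s ha ih =>
    intro h
    have has : a ∉ s := fun h' => lt_irrefl _ (ha a h')
    have h1 := ih fun p hp => h p (mem_insert_of_mem hp)
    have h2 := h a (mem_insert_self _ _)
    have h3 : s.card ≤ (Ico 1 (a / 2)).card := by
      refine card_le_card_of_injOn (· / 2) ?_ ?_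
      · intro p hp
        have e1 := h p (mem_insert_of_mem hp)
        have e2 := ha p hp
        simp only [coe_Ico, Set.mem_Ico]
        omega
      · intro p hp q hq e
        have e1 := h p (mem_insert_of_mem hp)
        have e2 := h q (mem_insert_of_mem hq)
        simp only at e
        omega
    rw [Nat.card_Ico] at h3
    have h4 : (2 * s.card + 3 : ℝ) ≤ a := by exact_mod_cast (by omega : 2 * s.card + 3 ≤ a)
    rw [prod_insert has, card_insert_of_notMem has, mul_pow]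
    push_cast
    set k : ℝ := (s.card : ℝ)
    have hk : 0 ≤ k := by positivity
    calc _ ≤ (1 + 1 / (2 * k + 3)) ^ 2 * (2 * k + 1) := by clear * - a k s h4 h1; gcongr
      _ ≤ _ := by
        clear * - k hk s
        have : (1 + 1 / (2 * k + 3)) ^ 2 * (2 * k + 1) =
            (2 * k + 4) ^ 2 * (2 * k + 1) / (2 * k + 3) ^ 2 := by field_simp; ring
        rw [this, div_le_iff₀ (by positivity)]
        linarith only [hk]

lemma rho_sq_le {b : ℕ} (hb : 2 ≤ b) : rho (b * (b ^ 2 - 1)) ^ 2 ≤ 30 * Real.log b := by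
  set B := b * (b ^ 2 - 1) with hB
  have hB0 : B ≠ 0 := by
    have : 1 < b ^ 2 := by nlinarith only [hb]
    exact Nat.mul_ne_zero (by omega) (by omega)
  have hb' : (2 : ℝ) ≤ b := by exact_mod_cast hb
  have hl2 := Real.log_two_gt_d9
  have hlog : Real.log 2 ≤ Real.log b := Real.log_le_log (by norm_num) hb'
  have h1 : (B.primeFactors.card : ℝ) * Real.log 2 ≤ 3 * Real.log b := by
    have e1 : 2 ^ B.primeFactors.card ≤ b ^ 3 := by
      calc _ ≤ ∏ p ∈ B.primeFactors, p :=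
            pow_card_le_prod _ _ _ fun p hp => (Nat.prime_of_mem_primeFactors hp).two_le
        _ ≤ B := Nat.le_of_dvd (Nat.pos_of_ne_zero hB0) (Nat.prod_primeFactors_dvd B)
        _ ≤ b * b ^ 2 := Nat.mul_le_mul_left _ (Nat.sub_le _ _)
        _ = _ := by ring
    have e2 : (2 : ℝ) ^ B.primeFactors.card ≤ b ^ 3 := by exact_mod_cast e1
    have := Real.log_le_log (by positivity) e2
    rwa [Real.log_pow, Real.log_pow] at this
  have h2 := prod_odd_le (B.primeFactors.erase 2) (by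
    intro p hp
    rw [mem_erase] at hp
    have e1 := Nat.prime_of_mem_primeFactors hp.2
    have e2 := e1.two_le
    exact ⟨by omega, e1.eq_two_or_odd.resolve_left hp.1⟩)
  have h3 : rho B ≤ 3 / 2 * ∏ p ∈ B.primeFactors.erase 2, (1 + 1 / (p : ℝ)) := by
    clear * - B
    have e0 : 0 ≤ ∏ p ∈ B.primeFactors.erase 2, (1 + 1 / (p : ℝ)) :=
      prod_nonneg fun _ _ => by positivity
    by_cases h : 2 ∈ B.primeFactors
    · rw [rho, ← mul_prod_erase _ _ h]; norm_num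
    · rw [erase_eq_of_notMem h] at e0 ⊢
      rw [rho]; linarith only [e0]
  have h4 : ((B.primeFactors.erase 2).card : ℝ) ≤ B.primeFactors.card := by
    exact_mod_cast card_erase_le
  have h5 := pow_le_pow_left₀ (rho_pos B).le h3 2
  rw [mul_pow] at h5
  have h6 : (0 : ℝ) ≤ B.primeFactors.card := by positivity
  clear * - B b hl2 hlog h1 h2 h4 h5
  linarith only [hl2, hlog, h1, h2, h4, h5, mul_nonneg_of_nonpos_of_nonpos (Mathlib.Tactic.Linarith.sub_nonpos_of_le (Mathlib.Tactic.Linarith.natCast_nonneg ℝ #B.primeFactors)) (le_of_lt (Mathlib.Tactic.Linarith.sub_neg_of_lt hl2))]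

end Pool.Agent.Work.MP_eac634_nt
end

-- merged part: Pool.Agent.Work.MP_eac634_nt.Main
section
/-!
# Every large integer is a sum of `O(log b)` reversed primes
-/

open Finset Filter Topology

namespace Pool.Agent.Work.MP_eac634_nt

lemma eventually_isSum {b : ℕ} (hb : 2 ≤ b) (t n₁ : ℕ)
    (ht : 2048 * rho (b * (b ^ 2 - 1)) < (3 / 2) ^ t)
    (hn : ∀ n, n₁ ≤ n → ∃ d : ℕ, d ≤ n ∧ n < 2 * d ∧ d.Coprime b) :
    ∀ᶠ N : ℕ in atTop,
      IsSumOfRevPrimes b (10 * 2 ^ t + 2 * n₁ + Nat.log 2 b + 3) N := by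
  obtain ⟨l₀, h₀⟩ := eventually_atTop.1 ((eventually_sumset hb).and
    (eventually_exists_prime_digit hb))
  obtain ⟨l₁, h₁⟩ := eventually_atTop.1 (eventually_exists_prime_digit hb)
  set H₀ := 2 * 2 ^ t with hH₀
  have hH0 : 0 < H₀ := by positivity
  filter_upwards [eventually_ge_atTop (H₀ * b ^ (l₀ + l₁ + 1))] with N hN
  have hN1 : b ^ (l₀ + l₁ + 1) ≤ N / H₀ := by
    rw [Nat.le_div_iff_mul_le hH0, mul_comm]; exact hN
  have hN0 : N / H₀ ≠ 0 := by
    have : 0 < b ^ (l₀ + l₁ + 1) := by positivity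
    omega
  have hl : l₀ + l₁ + 1 ≤ Nat.log b (N / H₀) := Nat.le_log_of_pow_le (by omega) hN1
  have a1 : b ^ Nat.log b (N / H₀) ≤ N / H₀ := Nat.pow_log_le_self b hN0
  have a2 : N / H₀ < b ^ (Nat.log b (N / H₀) + 1) := Nat.lt_pow_succ_log_self (by omega) _
  obtain ⟨l, hl'⟩ : ∃ l, Nat.log b (N / H₀) = l + 1 := ⟨Nat.log b (N / H₀) - 1, by omega⟩
  rw [hl'] at hl a1 a2
  rw [Nat.le_div_iff_mul_le hH0] at a1
  rw [Nat.div_lt_iff_lt_mul hH0] at a2
  obtain ⟨⟨S, hS, hScard⟩, hdig⟩ := h₀ (l + 1) (by omega)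
  have hcop : (b - 1).Coprime b := by
    obtain ⟨c, rfl⟩ : ∃ c, b = c + 1 := ⟨b - 1, by omega⟩
    simp
  have hY : 0 < b ^ l := by positivity
  -- the modulus
  obtain ⟨p, p1, p2, p3, p4⟩ := h₁ l (by omega) (b - 1) (by omega) hcop
  obtain ⟨m1, m2⟩ := rev_bounds hb p2 p3
  rw [p4] at m1 m2
  rw [Nat.sub_add_cancel (by omega)] at m2
  set X := b ^ (l + 1) with hX
  have hXe : X = b ^ l * b := pow_succ _ _
  have hX2 : 2 ≤ X := by clear * - X b l hXe p hY p2 p3; rw [hXe]; linarith only [hY, p2, p3, hXe]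
  have hX0 : 0 < X := by omega
  have m3 : X ≤ 2 * rev b p := by
    have : b * b ^ l ≤ 2 * ((b - 1) * b ^ l) := by
      rw [← mul_assoc]; exact Nat.mul_le_mul_right _ (by omega)
    rw [hXe, mul_comm]; omega
  have m4 : rev b p ≤ X := by rw [hXe, mul_comm]; exact m2.le
  have hd : ∀ d < b, d.Coprime b → ∃ r, IsSumOfRevPrimes b 1 r ∧ d * X ≤ r ∧ r < (d + 1) * X := by
    intro d h1 h2
    obtain ⟨q, q1, q2, q3, q4⟩ := hdig d h1 h2
    have := rev_bounds hb q2 q3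
    rw [q4] at this
    exact ⟨rev b q, isSum_one q1, this⟩
  have hcard : 2 ^ t * (4 * X) < 3 ^ t * S.card := by
    clear * - b l X hX hX0 S hScard t ht
    have hr := rho_pos (b * (b ^ 2 - 1))
    have hX' : ((b : ℝ)) ^ (l + 1) = (X : ℝ) := by rw [hX]; push_cast; rfl
    rw [hX', div_le_iff₀ (by positivity)] at hScard
    rw [div_pow, lt_div_iff₀ (by positivity)] at ht
    have hXp : (0 : ℝ) < X := by exact_mod_cast hX0
    have hS0 : (0 : ℝ) < S.card := by
      by_contra h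
      have : (S.card : ℝ) = 0 := le_antisymm (not_lt.1 h) (by positivity)
      rw [this] at hScard
      linarith only [hScard, hXp]
    have : (2 : ℝ) ^ t * (4 * X) < 3 ^ t * S.card := by
      calc (2 : ℝ) ^ t * (4 * X) ≤ 2 ^ t * (4 * (S.card * (512 * rho (b * (b ^ 2 - 1))))) := by
            gcongr
        _ = (2048 * rho (b * (b ^ 2 - 1)) * 2 ^ t) * S.card := by ring
        _ < _ := by gcongr
    exact_mod_cast this
  -- first reduction
  obtain ⟨r, r1, r2, r3⟩ := hd (b - 1) (by omega) hcop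
  rw [Nat.sub_add_cancel (by omega)] at r3
  have hr0 : 0 < r := lt_of_lt_of_le (Nat.mul_pos (by omega) hX0) r2
  set M := N - H₀ * X with hM
  have hM1 : M / r ≤ 2 * H₀ := by
    clear * - M H₀ r b X hb t l₀ l₁ N l S p hX a2 r2
    refine Nat.div_le_of_le_mul ?_
    have e1 : b * X ≤ 2 * ((b - 1) * X) := by
      rw [← mul_assoc]; exact Nat.mul_le_mul_right _ (by omega)
    have e2 : N < b * X * H₀ := by rw [pow_succ, ← hX, mul_comm X b] at a2; exact a2
    have e3 : b * X * H₀ ≤ (2 * r) * H₀ := Nat.mul_le_mul_right _ (by omega)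
    have : M ≤ N := Nat.sub_le _ _
    linarith only [e2, e3, this]
  have hM2 : M % r / X < b := by
    rw [Nat.div_lt_iff_lt_mul hX0]
    exact (Nat.mod_lt _ hr0).trans r3
  obtain ⟨M', c1, c2, c3⟩ := greedy hX0 hd hn (Nat.log 2 b + 1) (M % r)
    (hM2.trans (Nat.lt_pow_succ_log_self (by norm_num) b)) hM2
  have c4 := cover hb hX2 m3 m4 (isSum_one p1) S hS hcard (H₀ * X + M') (by
    clear * - t X H₀ M' hH₀
    rw [hH₀]; linarith only [Nat.zero_le M'])
  have c5 : (H₀ * X + M') / rev b p ≤ 2 * (H₀ + n₁ + 1) := by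
    clear * - H₀ X M' n₁ b p hX0 t l₀ l₁ N l S r c2 m3
    refine Nat.div_le_of_le_mul ?_
    have e1 : M' < (n₁ + 1) * X := by
      rw [← Nat.div_lt_iff_lt_mul hX0]; omega
    linarith only [e1, m3, Nat.mul_le_mul_left (H₀ + n₁ + 1) m3]
  have c6 := ((r1.mul (M / r)).add c3).add c4
  have c7 : M / r * r + (M % r - M') + (H₀ * X + M') = N := by
    have := Nat.div_add_mod M r
    rw [mul_comm] at this
    rw [mul_comm] at a1
    omega
  rw [c7] at c6
  exact c6.mono (by omega)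

theorem exists_bound : ∃ C : ℝ, 0 < C ∧ ∀ b : ℕ, 2 ≤ b → ∃ K : ℕ, 2 ≤ K ∧
    (K : ℝ) ≤ C * Real.log b ∧ ∀ᶠ N : ℕ in atTop, IsSumOfRevPrimes b K N := by
  obtain ⟨n₀, h₀⟩ := exists_prime_not_dvd
  refine ⟨300 * 3072 ^ 2 + 4 * n₀ + 24, by positivity, fun b hb => ?_⟩
  have hb' : (2 : ℝ) ≤ b := by exact_mod_cast hb
  have hl2 := Real.log_two_gt_d9
  have hlog : Real.log 2 ≤ Real.log b := Real.log_le_log (by norm_num) hb'
  have hr := one_le_rho (b * (b ^ 2 - 1))
  obtain ⟨n, n1, n2⟩ := exists_nat_pow_near (x := 2048 * rho (b * (b ^ 2 - 1))) (y := 3 / 2)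
    (by linarith only [hr]) (by norm_num)
  refine ⟨_, by omega, ?_, eventually_isSum hb (n + 1) (n₀ + ⌈4 * Real.log b⌉₊ + 1) n2
    (fun k hk => h₀ b k (by omega) (by omega) ?_)⟩
  · have e1 : (2 : ℝ) ^ (n + 1) ≤ 3072 ^ 2 * (30 * Real.log b) := by
      clear * - n b n1 hb
      calc (2 : ℝ) ^ (n + 1) ≤ ((3 / 2) ^ 2) ^ (n + 1) := by gcongr; norm_num
        _ = (3 / 2 * (3 / 2) ^ n) ^ 2 := by rw [← pow_succ', ← pow_mul, ← pow_mul, mul_comm]
        _ ≤ (3 / 2 * (2048 * rho (b * (b ^ 2 - 1)))) ^ 2 := by gcongr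
        _ = 3072 ^ 2 * rho (b * (b ^ 2 - 1)) ^ 2 := by ring
        _ ≤ _ := by gcongr; exact rho_sq_le hb
    have e2 : (⌈4 * Real.log b⌉₊ : ℝ) < 4 * Real.log b + 1 := Nat.ceil_lt_add_one (by linarith only [hl2, hlog])
    have e3 : (Nat.log 2 b : ℝ) * Real.log 2 ≤ Real.log b := by
      rw [← Real.log_pow]
      refine Real.log_le_log (by positivity) ?_
      exact_mod_cast Nat.pow_log_le_self 2 (by omega : b ≠ 0)
    have e4 : (0 : ℝ) ≤ Nat.log 2 b := by positivity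
    have e5 : (0 : ℝ) ≤ n₀ := by positivity
    push_cast
    clear * - n n₀ b hl2 hlog e1 e2 e3
    linarith only [hl2, hlog, e1, e2, e3, mul_nonneg_of_nonpos_of_nonpos (Mathlib.Tactic.Linarith.sub_nonpos_of_le (Mathlib.Tactic.Linarith.natCast_nonneg ℝ (Nat.log (2 : ℕ) b))) (le_of_lt (Mathlib.Tactic.Linarith.sub_neg_of_lt hl2)), mul_nonneg_of_nonpos_of_nonpos (Mathlib.Tactic.Linarith.sub_nonpos_of_le (Mathlib.Tactic.Linarith.natCast_nonneg ℝ n₀)) (le_of_lt (Mathlib.Tactic.Linarith.sub_neg_of_lt hl2)), mul_nonneg_of_nonpos_of_nonpos (Mathlib.Tactic.Linarith.sub_nonpos_of_le (Mathlib.Tactic.Linarith.natCast_nonneg ℝ n₀)) (Mathlib.Tactic.Linarith.sub_nonpos_of_le hlog)]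
  · have e1 := Nat.le_ceil (4 * Real.log b)
    have e2 : ((⌈4 * Real.log b⌉₊ + 1 : ℕ) : ℝ) ≤ k := by exact_mod_cast (by omega)
    push_cast at e2
    clear * - b k e1 e2
    linarith

end Pool.Agent.Work.MP_eac634_nt
end
end
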